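import Pool.Agent.Run7.h636.LT.Iface

/-!
# Project LT (helper636): the remaining hypotheses of the assembly from the pieces
-/

set_option autoImplicit false

open scoped Matrix

noncomputable section

namespace Run7.h636.LT.ASM

open Module Pool.Agent.N496.LT Pool.Agent.TH630.Tor Pool.Agent.Helper993.FK Pool.Agent.Helper993.Delta
open Pool.Agent.W907.SG Run7.h636.LT

theorem fin_prod {G H : Type} [Group G] [Group H] (N : Subgroup G) (N' : Subgroup H) [Finite (G ⧸ N)]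
    [Finite (H ⧸ N')] : Finite ((G × H) ⧸ N.prod N') := by
  have h1 : N.FiniteIndex := Subgroup.finiteIndex_of_finite_quotient
  have h2 : N'.FiniteIndex := Subgroup.finiteIndex_of_finite_quotient
  have h3 : (N.prod N').FiniteIndex := ⟨by
    rw [Subgroup.index_prod]
    exact mul_ne_zero h1.index_ne_zero h2.index_ne_zero⟩
  exact Subgroup.finite_quotient_of_finiteIndex

theorem bock_tp (hT1 : S_TRZ1) (hS : S_SMITH) {Q : Type} [Group Q] [Fintype Q] (C : GCx Q) (p : ℕ) [Fact p.Prime]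
    (d : ℕ) (Z : ZC) (hZ : Rep C Z) : Nonempty (Bock Z p d (C.tp p d)) := by
  have h1 := hS Z p d
  have h2 := ((hT1 Q C).2 Z hZ).2
  unfold GCx.tp
  rw [h2 ℝ, h2 (ZMod p)]
  exact h1

theorem p3T (hT1 : S_TRZ1) (hT2 : S_TRZ2) (hS : S_SMITH) (hP : S_PAIR) (hB : S_BT) : P3T := by
  intro G _ C N _ _ p _ d
  obtain ⟨Z, hZ⟩ := (hT1 _ (C.quot N)).1
  have h1 := bock_tp hT1 hS (C.quot N) p d Z hZ
  have h2 := (hP Z Z p d d _ _ h1 h1).1
  have h3 := (hP Z (Z.prod Z) p d (d + d) _ _ h1 h2).2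
  have hZ2 := hT2 G G C C N N Z Z hZ hZ
  have hZ3 := hT2 G (G × G) C (C.prod C) N (N.prod N) Z (Z.prod Z) hZ hZ2
  have h4 := hB _ p _ _ h3
  have : Finite ((G × G) ⧸ N.prod N) := fin_prod N N
  have : Finite ((G × (G × G)) ⧸ N.prod (N.prod N)) := fin_prod N (N.prod N)
  letI : Fintype ((G × (G × G)) ⧸ N.prod (N.prod N)) := Fintype.ofFinite _
  rw [((hT1 _ _).2 _ hZ3).1, show 3 * d + 1 = d + (d + d) + 1 by ring, pow_succ, pow_two, mul_assoc]
  exact h4

theorem p3S (hT1 : S_TRZ1) (hT2 : S_TRZ2) (hS : S_SMITH) (hP : S_PAIR) (hB : S_BT) : P3S := by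
  intro G _ C N _ _ p _ d
  obtain ⟨Z, hZ⟩ := (hT1 _ (C.quot N)).1
  have h1 := bock_tp hT1 hS (C.quot N) p d Z hZ
  obtain ⟨h2, h3⟩ := hP Z Z p d d _ _ h1 h1
  have hZ2 := hT2 G G C C N N Z Z hZ hZ
  have : Finite ((G × G) ⧸ N.prod N) := fin_prod N N
  letI : Fintype ((G × G) ⧸ N.prod N) := Fintype.ofFinite _
  rw [((hT1 _ _).2 _ hZ2).1, ((hT1 _ _).2 _ hZ2).1, pow_two, two_mul]
  exact ⟨hB _ p _ _ h2, hB _ p _ _ h3⟩

theorem detAc (hRF : S_RFD) {G : Type} [Group G] (hG : ResFin G) (C : FreeCx G)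
    (h : ∀ n v, C.laplacian n v = 0 → v = 0) : C.DetL2Acyclic := by
  intro n
  refine ⟨FreeCx.dimKer_of_inj _ (h n), ?_⟩
  have h1 := h n
  rw [C.laplacian_eq n] at h1 ⊢
  exact hRF G hG _ _ h1

theorem p4A (hI : S_P4I) (hR : P4R) (hRF : S_RFD) : P4A := by
  intro V _ _ G hL
  exact detAc hRF (hR V G) _ (hI V G hL)

theorem p5A (hINJ : S_INJ) (hI : S_P5I) (hRF : S_RFD) : P5A := by
  intro G H _ _ C E hG hH hC
  exact detAc hRF (resFin_prod hG hH) _ (hI G H C E fun n v hv => hINJ G C.toFree n (hC n).1 v hv)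

/-- the alternating sum of the moments vanishes -/
theorem alt (hSTR : S_STR) (hEUL : S_EUL) {G : Type} [Group G] (C : GCx G) (h : ∀ n, C.toFree.l2betti n = 0) (k : ℕ) :
    ∑ i : C.ι, (-1) ^ C.deg i * mom C k i = 0 := by
  rcases Nat.eq_zero_or_pos k with rfl | hk
  · have h1 : ∀ i : C.ι, mom C 0 i = 1 := by
      intro i
      unfold mom
      rw [pow_zero, Matrix.one_apply_eq, MonoidAlgebra.one_def, MonoidAlgebra.coeff_single, Finsupp.single_eq_same]
    rw [← hEUL G C h]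
    exact Finset.sum_congr rfl fun i _ => by rw [h1, mul_one]
  · exact hSTR G C k hk

theorem lap_nonneg {G : Type} [Group G] (C : FreeCx G) (n : ℕ) : 0 ≤ C.laplacian n := by
  have h1 : ∀ {H K : Type} [NormedAddCommGroup H] [InnerProductSpace ℂ H] [CompleteSpace H]
      [NormedAddCommGroup K] [InnerProductSpace ℂ K] [CompleteSpace K] (f : K →L[ℂ] H),
      0 ≤ f ∘L f.adjoint := by
    intro H K _ _ _ _ _ _ f
    have h2 := adjoint_comp_nonneg f.adjoint
    rwa [ContinuousLinearMap.adjoint_adjoint] at h2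
  cases n with
  | zero => exact h1 _
  | succ n => exact add_nonneg (h1 _) (adjoint_comp_nonneg _)

theorem p5B (hTRL : S_TRL) (hPRL : S_PRL) (hSTR : S_STR) (hEUL : S_EUL) (hMOM : S_MOM) : P5B := by
  intro G H _ _ C E hC hE hCE
  unfold FreeCx.l2torsion
  have h1 := hMOM (G × H) ((C.prod E).toFree.dim + 1) (fun n => (C.prod E).toFree.rank n)
    (fun n => (C.prod E).toFree.lapM n) (fun n => (-1) ^ (n : ℕ) * (n : ℕ))
    (fun n => by
      rw [← FreeCx.laplacian_eq]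
      exact lap_nonneg _ _)
    (fun n => by
      rw [← FreeCx.laplacian_eq]
      exact (hCE n).2) ?_
  · rw [Finset.sum_range]
    have h2 : ∀ n : Fin ((C.prod E).toFree.dim + 1), (-1 : ℝ) ^ (n : ℕ) * (n : ℕ) *
        Real.log (fkDet ((C.prod E).toFree.laplacian n)) = (-1 : ℝ) ^ (n : ℕ) * (n : ℕ) *
        Real.log (fkDet (rMul (((C.prod E).toFree.lapM n).map toQ))) := by
      intro n
      rw [FreeCx.laplacian_eq]
    rw [Finset.sum_congr rfl fun n _ => h2 n, h1, mul_zero]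
  · intro k
    have h2 : ∀ n : Fin ((C.prod E).toFree.dim + 1), (-1 : ℝ) ^ (n : ℕ) * (n : ℕ) *
        ∑ a, (((((C.prod E).toFree.lapM n) ^ k) a a).coeff 1 : ℝ) =
        (((-1 : ℤ) ^ (n : ℕ) * (n : ℕ) * ∑ x : (C.prod E).ι, if (C.prod E).deg x = n then mom (C.prod E) k x
          else 0 : ℤ) : ℝ) := by
      intro n
      rw [← hTRL (G × H) (C.prod E) n k]
      push_cast
      rfl
    rw [Finset.sum_congr rfl fun n _ => h2 n, ← Int.cast_sum]
    have h3 : ∑ n : Fin ((C.prod E).toFree.dim + 1), ((-1 : ℤ) ^ (n : ℕ) * (n : ℕ) * ∑ x : (C.prod E).ι,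
        if (C.prod E).deg x = n then mom (C.prod E) k x else 0) =
        ∑ x : (C.prod E).ι, (-1 : ℤ) ^ (C.prod E).deg x * ((C.prod E).deg x : ℕ) * mom (C.prod E) k x := by
      simp only [Finset.mul_sum]
      rw [Finset.sum_comm]
      refine Finset.sum_congr rfl fun x _ => ?_
      have hx : (C.prod E).deg x < (C.prod E).toFree.dim + 1 :=
        Nat.lt_succ_of_le (Finset.le_sup (f := (C.prod E).deg) (Finset.mem_univ x))
      rw [Finset.sum_eq_single (⟨(C.prod E).deg x, hx⟩ : Fin ((C.prod E).toFree.dim + 1))]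
      · rw [if_pos rfl]
      · intro n _ hn
        rw [if_neg (fun h => hn (Fin.ext h.symm)), mul_zero]
      · exact fun h => absurd (Finset.mem_univ _) h
    rw [h3]
    have h4 : ∀ x : (C.prod E).ι, (-1 : ℤ) ^ (C.prod E).deg x * ((C.prod E).deg x : ℕ) * mom (C.prod E) k x =
        ∑ l ∈ Finset.range (k + 1), (k.choose l : ℤ) * (
          ((-1) ^ C.deg x.1 * (C.deg x.1 : ℕ) * mom C l x.1) * ((-1) ^ E.deg x.2 * mom E (k - l) x.2) +
          ((-1) ^ C.deg x.1 * mom C l x.1) * ((-1) ^ E.deg x.2 * (E.deg x.2 : ℕ) * mom E (k - l) x.2)) := by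
      rintro ⟨i, j⟩
      rw [hPRL G H C E k i j, Finset.mul_sum]
      refine Finset.sum_congr rfl fun l _ => ?_
      show (-1 : ℤ) ^ (C.deg i + E.deg j) * ((C.deg i + E.deg j : ℕ) : ℤ) * _ = _
      rw [pow_add]
      push_cast
      ring
    have h5 : ∑ x : (C.prod E).ι, (-1 : ℤ) ^ (C.prod E).deg x * ((C.prod E).deg x : ℕ) * mom (C.prod E) k x = 0 := by
      rw [Finset.sum_congr rfl fun x _ => h4 x, Finset.sum_comm]
      refine Finset.sum_eq_zero fun l _ => ?_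
      rw [← Finset.mul_sum, Finset.sum_add_distrib]
      have h6 : ∑ x : (C.prod E).ι, ((-1) ^ C.deg x.1 * (C.deg x.1 : ℕ) * mom C l x.1) *
          ((-1) ^ E.deg x.2 * mom E (k - l) x.2) =
          (∑ i : C.ι, (-1) ^ C.deg i * (C.deg i : ℕ) * mom C l i) * ∑ j : E.ι, (-1) ^ E.deg j * mom E (k - l) j := by
        rw [Finset.sum_mul_sum]
        exact Fintype.sum_prod_type _
      have h7 : ∑ x : (C.prod E).ι, ((-1) ^ C.deg x.1 * mom C l x.1) *
          ((-1) ^ E.deg x.2 * (E.deg x.2 : ℕ) * mom E (k - l) x.2) =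
          (∑ i : C.ι, (-1) ^ C.deg i * mom C l i) * ∑ j : E.ι, (-1) ^ E.deg j * (E.deg j : ℕ) * mom E (k - l) j := by
        rw [Finset.sum_mul_sum]
        exact Fintype.sum_prod_type _
      rw [h6, h7, alt hSTR hEUL C (fun n => (hC n).1), alt hSTR hEUL E (fun n => (hE n).1), mul_zero, zero_mul,
        add_zero, mul_zero]
    rw [h5, Int.cast_zero]

end Run7.h636.LT.ASM
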