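import Pool.Agent.N504.RS.Tri

/-!
# Project LT (helper636): C3, from the theorem `tri` of `Pool/Agent/N504/RS/Tri.lean`
-/

set_option autoImplicit false

namespace Run7.h636.LT.C3

open Pool.Agent.N496.LT

theorem main : Pool.Agent.N496.LT.C3 := by
  intro n G col hB hT
  obtain ⟨n', G', κ, h1, h2, h3, h4, h5, h6, h7⟩ := Pool.Agent.N504.RS.tri n G col hB hT
  refine ⟨n', G', h1, h2, h3, h4, fun m hm1 hm2 => ?_⟩
  obtain ⟨s, t, a1, a2, a3, a4, a5, a6, a7, a8, a9⟩ := h7 m hm1 hm2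
  exact ⟨s, t, a1, a2, a3, a4, a5, a6, fun u b1 b2 b3 => ⟨(a9 u b1 b2 b3).1, (a9 u b1 b2 b3).2.1⟩⟩

end Run7.h636.LT.C3
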