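import Pool.Agent.N496.LT.Stm

/-!
# Project LT (helper636), P1: the chain map from the lifts to the complex below
-/

set_option autoImplicit false

noncomputable section

namespace Run7.h636.LT.P1

open Module Pool.Agent.N496.LT Pool.Agent.W907.SG

/-! ### signs -/

section signs

variable {U V : Type} [LinearOrder U] [LinearOrder V] (f : U → V)

/-- the sign of the pair -/
def hh (a b : U) : ℤ := if a < b ∧ f b < f a then -1 else 1

/-- the sign of the reordering of `T` -/
def gg (T : Finset U) : ℤ := ∏ a ∈ T, ∏ b ∈ T, hh f a b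

theorem hh_sq (a b : U) : hh f a b * hh f a b = 1 := by
  unfold hh
  split_ifs <;> norm_num

theorem gg_sq (T : Finset U) : gg f T * gg f T = 1 := by
  unfold gg
  rw [← Finset.prod_mul_distrib]
  refine Finset.prod_eq_one fun a _ => ?_
  rw [← Finset.prod_mul_distrib]
  exact Finset.prod_eq_one fun b _ => hh_sq f a b

theorem hh_self (a : U) : hh f a a = 1 := by
  unfold hh
  rw [if_neg (fun h => lt_irrefl _ h.1)]

theorem gg_insert (v : U) (T : Finset U) (h : v ∉ T) :
    gg f (insert v T) = gg f T * ∏ b ∈ T, (hh f v b * hh f b v) := by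
  unfold gg
  rw [Finset.prod_insert h, Finset.prod_insert h, hh_self, one_mul]
  have h1 : ∀ a ∈ T, ∏ b ∈ insert v T, hh f a b = hh f a v * ∏ b ∈ T, hh f a b :=
    fun a _ => Finset.prod_insert h
  rw [Finset.prod_congr rfl h1, Finset.prod_mul_distrib, Finset.prod_mul_distrib]
  ring

theorem sg_prod {W : Type} [LinearOrder W] (v : W) (T : Finset W) :
    sg v T = ∏ u ∈ T, (if u < v then (-1 : ℤ) else 1) := by
  unfold sg
  rw [Finset.prod_ite, Finset.prod_const, Finset.prod_const_one, mul_one]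

theorem gg_congr (g : U → V) (T : Finset U) (h : ∀ a ∈ T, f a = g a) : gg f T = gg g T := by
  unfold gg hh
  refine Finset.prod_congr rfl fun a ha => Finset.prod_congr rfl fun b hb => ?_
  rw [h a ha, h b hb]

theorem sg_map (hf : Function.Injective f) (v : U) (T : Finset U) (h : v ∉ T) :
    sg v T * gg f (insert v T) = gg f T * sg (f v) (T.image f) := by
  rw [gg_insert f v T h, sg_prod, sg_prod, Finset.prod_image (fun _ _ _ _ h => hf h), mul_left_comm,
    ← Finset.prod_mul_distrib]
  congr 1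
  refine Finset.prod_congr rfl fun u hu => ?_
  have hne : u ≠ v := fun h1 => h (h1 ▸ hu)
  have hne' : f u ≠ f v := fun h1 => hne (hf h1)
  unfold hh
  rcases lt_or_gt_of_ne hne with h1 | h1
  · rcases lt_or_gt_of_ne hne' with h2 | h2
    · rw [if_pos h1, if_pos h2, if_neg (fun h3 => lt_asymm h1 h3.1),
        if_neg (fun h3 => lt_asymm h2 h3.2)]
      norm_num
    · rw [if_pos h1, if_neg (lt_asymm h2), if_neg (fun h3 => lt_asymm h1 h3.1), if_pos ⟨h1, h2⟩]
      norm_num
  · rcases lt_or_gt_of_ne hne' with h2 | h2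
    · rw [if_neg (lt_asymm h1), if_pos h2, if_pos ⟨h1, h2⟩, if_neg (fun h3 => lt_asymm h1 h3.1)]
      norm_num
    · rw [if_neg (lt_asymm h1), if_neg (lt_asymm h2), if_neg (fun h3 => lt_asymm h2 h3.2),
        if_neg (fun h3 => lt_asymm h1 h3.1)]
      norm_num

end signs

variable {V F : Type} [Fintype V] [LinearOrder V] [Field F] {G : SimpleGraph V} {d : ℕ} (X : Dbl F G d)

/-- the lifts of the vertices -/
def fB (B : Finset (Fin X.n)) (v : Fin X.n) : V := X.j v (decide (v ∈ B))

theorem fB_inj (B : Finset (Fin X.n)) : Function.Injective (fB X B) := by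
  intro v w h
  by_contra hne
  exact X.j_ne v w hne _ _ h

/-- the lifts of the faces -/
def lf (σ B : Finset (Fin X.n)) : Finset V := σ.image (fB X B)

theorem mem_lf (σ B : Finset (Fin X.n)) (x : V) : x ∈ lf X σ B ↔ ∃ v ∈ σ, fB X B v = x := Finset.mem_image

theorem lf_card (σ B : Finset (Fin X.n)) : (lf X σ B).card = σ.card :=
  Finset.card_image_of_injective _ (fB_inj X B)

theorem j_mem (σ B : Finset (Fin X.n)) (v : Fin X.n) (b : Bool) (h : X.j v b ∈ lf X σ B) : v ∈ σ := by
  obtain ⟨w, hw, h1⟩ := (mem_lf X σ B _).1 h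
  by_cases hvw : w = v
  · exact hvw ▸ hw
  · exact absurd h1 (X.j_ne w v hvw _ _)

/-- a lift determines the face and the choices -/
theorem lf_inj {σ σ' B B' : Finset (Fin X.n)} (hB : B ⊆ σ \ X.U) (hB' : B' ⊆ σ' \ X.U)
    (h : lf X σ B = lf X σ' B') : σ = σ' ∧ B = B' := by
  have key : ∀ {σ σ' B B' : Finset (Fin X.n)}, lf X σ B = lf X σ' B' → σ ⊆ σ' := by
    intro σ σ' B B' h v hv
    have h1 : fB X B v ∈ lf X σ B := (mem_lf X σ B _).2 ⟨v, hv, rfl⟩
    rw [h] at h1
    exact j_mem X σ' B' v _ h1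
  have hσ : σ = σ' := Finset.Subset.antisymm (key h) (key h.symm)
  refine ⟨hσ, ?_⟩
  subst hσ
  have key2 : ∀ {B B' : Finset (Fin X.n)}, B ⊆ σ \ X.U → lf X σ B = lf X σ B' → B ⊆ B' := by
    intro B B' hB h v hv
    have h0 := Finset.mem_sdiff.1 (hB hv)
    have h1 : fB X B v ∈ lf X σ B := (mem_lf X σ B _).2 ⟨v, h0.1, rfl⟩
    rw [h] at h1
    obtain ⟨w, hw, h2⟩ := (mem_lf X σ B' _).1 h1
    have hwv : w = v := by
      by_contra hne
      exact X.j_ne w v hne _ _ h2
    subst hwv
    unfold fB at h2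
    rw [decide_eq_true hv] at h2
    by_contra hn
    rw [decide_eq_false hn] at h2
    exact (X.j_adj w h0.2).1 h2.symm
  exact Finset.Subset.antisymm (key2 hB h) (key2 hB' h.symm)

/-- the lifts of a vertex -/
def lv (w : Fin X.n) : Finset V := {X.j w true, X.j w false}

theorem lf_congr (τ B B' : Finset (Fin X.n)) (h : ∀ v ∈ τ, (v ∈ B ↔ v ∈ B')) : lf X τ B = lf X τ B' := by
  unfold lf
  refine Finset.image_congr fun v hv => ?_
  unfold fB
  rw [decide_eq_decide.2 (h v hv)]

theorem gg_congr' (τ B B' : Finset (Fin X.n)) (h : ∀ v ∈ τ, (v ∈ B ↔ v ∈ B')) :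
    gg (fB X B) τ = gg (fB X B') τ := by
  refine gg_congr _ _ _ fun v hv => ?_
  unfold fB
  rw [decide_eq_decide.2 (h v hv)]

variable {M : Type} [AddCommGroup M] [Module F M]

/-- the chain map -/
def s (c : Finset V → M) (σ : Finset (Fin X.n)) : M := ∑ B ∈ (σ \ X.U).powerset, gg (fB X B) σ • c (lf X σ B)

/-- the term of the boundary -/
theorem term (c : Finset V → M) (τ : Finset (Fin X.n)) (w : Fin X.n) (hw : w ∉ τ) :
    ∑ B ∈ (τ \ X.U).powerset, ∑ x ∈ lv X w, gg (fB X B) τ • (sg x (lf X τ B) • c (insert x (lf X τ B))) =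
      sg w τ • s X c (insert w τ) := by
  classical
  have key : ∀ B' : Finset (Fin X.n), gg (fB X B') τ • (sg (fB X B' w) (lf X τ B') •
      c (insert (fB X B' w) (lf X τ B'))) = sg w τ • (gg (fB X B') (insert w τ) • c (lf X (insert w τ) B')) := by
    intro B'
    have h1 := sg_map (fB X B') (fB_inj X B') w τ hw
    rw [smul_smul, smul_smul, h1]
    unfold lf
    rw [Finset.image_insert]
  have hfw : ∀ B, B ⊆ τ \ X.U → w ∉ B := fun B hB h => hw (Finset.mem_sdiff.1 (hB h)).1
  unfold s
  rw [Finset.smul_sum]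
  by_cases hU : w ∈ X.U
  · have h1 : insert w τ \ X.U = τ \ X.U := Finset.insert_sdiff_of_mem _ hU
    rw [h1]
    refine Finset.sum_congr rfl fun B hB => ?_
    have hB' := Finset.mem_powerset.1 hB
    have h2 : lv X w = {X.j w false} := by
      unfold lv
      rw [X.j_U w hU, Finset.pair_eq_singleton]
    have h3 : fB X B w = X.j w false := by
      unfold fB
      rw [decide_eq_false (hfw B hB')]
    rw [h2, Finset.sum_singleton, ← key B, h3]
  · have h1 : insert w τ \ X.U = insert w (τ \ X.U) := Finset.insert_sdiff_of_notMem _ hU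
    have h0 : w ∉ τ \ X.U := fun h => hw (Finset.mem_sdiff.1 h).1
    rw [h1, Finset.sum_powerset_insert h0, ← Finset.sum_add_distrib]
    refine Finset.sum_congr rfl fun B hB => ?_
    have hB' := Finset.mem_powerset.1 hB
    have h3 : fB X B w = X.j w false := by
      unfold fB
      rw [decide_eq_false (hfw B hB')]
    have h4 : fB X (insert w B) w = X.j w true := by
      unfold fB
      rw [decide_eq_true (Finset.mem_insert_self _ _)]
    have h5 : ∀ v ∈ τ, (v ∈ B ↔ v ∈ insert w B) := by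
      intro v hv
      rw [Finset.mem_insert]
      exact (or_iff_right (fun h : v = w => hw (h ▸ hv))).symm
    unfold lv
    rw [Finset.sum_pair (X.j_adj w hU).1, ← key B, ← key (insert w B), h3, h4, ← lf_congr X τ _ _ h5,
      ← gg_congr' X τ _ _ h5, add_comm]

/-- the chain map commutes with the boundaries on chains supported on lifts -/
theorem s_bd (c : Finset V → M) (hc : ∀ T, c T ≠ 0 → ∃ σ B, T = lf X σ B) (τ : Finset (Fin X.n)) :
    s X (bd F c) τ = ∑ w ∈ τᶜ, sg w τ • s X c (insert w τ) := by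
  classical
  rw [← Finset.sum_congr rfl fun w hw => term X c τ w (Finset.mem_compl.1 hw), Finset.sum_comm]
  unfold s
  refine Finset.sum_congr rfl fun B hB => ?_
  rw [bd_apply, Finset.smul_sum]
  have hdisj : ((τᶜ : Finset (Fin X.n)) : Set (Fin X.n)).PairwiseDisjoint (lv X) := by
    intro v _ w _ hvw
    rw [Function.onFun, Finset.disjoint_left]
    intro x hx hx'
    unfold lv at hx hx'
    rw [Finset.mem_insert, Finset.mem_singleton] at hx hx'
    rcases hx with rfl | rfl <;> rcases hx' with h | h <;> exact X.j_ne v w hvw _ _ h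
  rw [← Finset.sum_biUnion hdisj]
  symm
  refine Finset.sum_subset ?_ ?_
  · intro x hx
    obtain ⟨w, hw, hxw⟩ := Finset.mem_biUnion.1 hx
    rw [Finset.mem_compl] at hw ⊢
    intro h
    unfold lv at hxw
    rw [Finset.mem_insert, Finset.mem_singleton] at hxw
    rcases hxw with rfl | rfl <;> exact hw (j_mem X τ B w _ h)
  · intro x hx hx'
    have h0 : c (insert x (lf X τ B)) = 0 := by
      by_contra h
      obtain ⟨σ, B', h1⟩ := hc _ h
      have h2 : x ∈ lf X σ B' := by
        rw [← h1]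
        exact Finset.mem_insert_self _ _
      obtain ⟨w, hw, h3⟩ := (mem_lf X σ B' x).1 h2
      apply hx'
      refine Finset.mem_biUnion.2 ⟨w, ?_, ?_⟩
      · rw [Finset.mem_compl]
        intro hwτ
        have h4 : fB X B w ∈ lf X σ B' := by
          rw [← h1]
          exact Finset.mem_insert_of_mem ((mem_lf X τ B _).2 ⟨w, hwτ, rfl⟩)
        obtain ⟨w', hw', h5⟩ := (mem_lf X σ B' _).1 h4
        have h6 : w' = w := by
          by_contra hne
          exact X.j_ne w' w hne _ _ h5
        rw [h6, h3] at h5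
        rw [Finset.mem_compl] at hx
        exact hx (h5 ▸ (mem_lf X τ B _).2 ⟨w, hwτ, rfl⟩)
      · unfold lv
        rw [Finset.mem_insert, Finset.mem_singleton, ← h3]
        unfold fB
        cases decide (w ∈ B')
        · exact Or.inr rfl
        · exact Or.inl rfl
    rw [h0, smul_zero, smul_zero]

/-- the support of the boundary -/
theorem bd_supp (c : Finset V → M) (hc : ∀ T, c T ≠ 0 → ∃ σ B, B ⊆ σ \ X.U ∧ T = lf X σ B) (T : Finset V)
    (hT : bd F c T ≠ 0) : ∃ σ B, B ⊆ σ \ X.U ∧ T = lf X σ B := by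
  classical
  rw [bd_apply] at hT
  obtain ⟨x, hx, h1⟩ := Finset.exists_ne_zero_of_sum_ne_zero hT
  have h2 : c (insert x T) ≠ 0 := fun h => h1 (by rw [h, smul_zero])
  obtain ⟨σ, B, hB, h3⟩ := hc _ h2
  have h4 : x ∈ lf X σ B := by
    rw [← h3]
    exact Finset.mem_insert_self _ _
  obtain ⟨w, hw, h5⟩ := (mem_lf X σ B x).1 h4
  have hxT : x ∉ T := Finset.mem_compl.1 hx
  refine ⟨σ.erase w, B.erase w, ?_, ?_⟩
  · intro v hv
    obtain ⟨h6, h7⟩ := Finset.mem_erase.1 hv
    have h8 := Finset.mem_sdiff.1 (hB h7)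
    exact Finset.mem_sdiff.2 ⟨Finset.mem_erase.2 ⟨h6, h8.1⟩, h8.2⟩
  · rw [← Finset.erase_insert hxT, h3]
    have h6 : lf X (σ.erase w) (B.erase w) = lf X (σ.erase w) B :=
      lf_congr X _ _ _ fun v hv => by
        rw [Finset.mem_erase]
        exact and_iff_right (Finset.ne_of_mem_erase hv)
    rw [h6, ← h5]
    unfold lf
    exact (Finset.image_erase (fB_inj X B) σ w).symm

end Run7.h636.LT.P1
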