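import Pool.Agent.Run7.h636.LT.P1b
import Pool.Agent.Run7.h636.LT.P1c
import Pool.Agent.Y132.SI.Free

/-!
# Project LT (helper636), P1: the dimension of the space of cycles
-/

set_option autoImplicit false

noncomputable section

namespace Run7.h636.LT.P1

open Module Pool.Agent.N496.LT Pool.Agent.W907.SG Pool.Agent.W397.SG

variable {V F : Type} [Fintype V] [LinearOrder V] [Field F] {G : SimpleGraph V} {d : ℕ} (X : Dbl F G d)
  {Y : Type} [Fintype Y] (a : V → Y → Y)

/-- functions anti-invariant under one lift -/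
def Pw (w : Fin X.n) (b : Bool) : Submodule F (Y → F) := ET F a {X.j w b}

/-- functions anti-invariant under the lifts of a face -/
def Nn (σ B : Finset (Fin X.n)) : Submodule F (Y → F) := ET F a (lf X σ B)

omit [Fintype V] [Fintype Y] [LinearOrder V] in
theorem ET_mono {S T : Finset V} (h : S ⊆ T) : ET F a T ≤ ET F a S := fun _ hf t ht => hf t (h ht)

theorem Nn_le (σ B : Finset (Fin X.n)) (w : Fin X.n) (hw : w ∈ σ) : Nn X a σ B ≤ Pw X a w (decide (w ∈ B)) := by
  refine ET_mono a ?_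
  rw [Finset.singleton_subset_iff]
  exact (mem_lf X σ B _).2 ⟨w, hw, rfl⟩

theorem Nn_le' (σ B : Finset (Fin X.n)) (hB : B ⊆ σ \ X.U) : Nn X a σ B ≤ Nn X a (σ ∩ X.U) ∅ := by
  refine ET_mono a ?_
  intro x hx
  obtain ⟨v, hv, rfl⟩ := (mem_lf X _ _ x).1 hx
  obtain ⟨h1, h2⟩ := Finset.mem_inter.1 hv
  refine (mem_lf X _ _ _).2 ⟨v, h1, ?_⟩
  unfold fB
  rw [decide_eq_false (fun h => (Finset.mem_sdiff.1 (hB h)).2 h2), decide_eq_false (Finset.notMem_empty v)]

theorem NU_le (σ : Finset (Fin X.n)) : Nn X a X.U ∅ ≤ Nn X a (σ ∩ X.U) ∅ :=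
  ET_mono a (Finset.image_subset_image Finset.inter_subset_right)

/-- the vectors that lift to the face `σ` -/
def Is (σ : Finset (Fin X.n)) : Submodule F (Y → F) := ⨆ B ∈ (σ \ X.U).powerset, Nn X a σ B

theorem Is_le (σ : Finset (Fin X.n)) : Is X a σ ≤ Nn X a (σ ∩ X.U) ∅ :=
  iSup₂_le fun B hB => Nn_le' X a σ B (Finset.mem_powerset.1 hB)

theorem Is_dim (δ : ℕ) (hδ : ∀ w, w ∉ X.U → finrank F (Pw X a w true ⊓ Pw X a w false : Submodule F (Y → F)) ≤ δ)
    (hdim : ∀ T : Finset V, G.IsClique (T : Set V) → finrank F (ET F a T) * 2 ^ T.card = Fintype.card Y)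
    (σ : Finset (Fin X.n)) (hσ : X.z σ ≠ 0) :
    finrank F (Nn X a (σ ∩ X.U) ∅) ≤ finrank F (Is X a σ) + 2 ^ (σ \ X.U).card * δ := by
  classical
  have hcl : ∀ B, G.IsClique ((lf X σ B : Finset V) : Set V) := by
    intro B x hx y hy hxy
    obtain ⟨v, hv, rfl⟩ := (mem_lf X σ B x).1 (Finset.mem_coe.1 hx)
    obtain ⟨w, hw, rfl⟩ := (mem_lf X σ B y).1 (Finset.mem_coe.1 hy)
    exact X.clique σ hσ v hv w hw (fun h => hxy (by rw [h])) _ _
  have h1 := sup_ge (Pw X a) δ (σ \ X.U) (fun w hw => hδ w (Finset.mem_sdiff.1 hw).2) (Nn X a σ)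
    (fun B hB w hw => Nn_le X a σ B w (Finset.mem_sdiff.1 hw).1)
  have h2 : ∀ B, finrank F (Nn X a σ B) * 2 ^ σ.card = Fintype.card Y := by
    intro B
    have h := hdim _ (hcl B)
    rwa [lf_card] at h
  have h3 : finrank F (Nn X a (σ ∩ X.U) ∅) * 2 ^ (σ ∩ X.U).card = Fintype.card Y := by
    have hc : G.IsClique ((lf X (σ ∩ X.U) ∅ : Finset V) : Set V) :=
      (hcl ∅).subset (by
        have : lf X (σ ∩ X.U) ∅ ⊆ lf X σ ∅ := Finset.image_subset_image Finset.inter_subset_left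
        exact_mod_cast this)
    have h := hdim _ hc
    rwa [lf_card] at h
  have h4 : (σ ∩ X.U).card + (σ \ X.U).card = σ.card := Finset.card_inter_add_card_sdiff σ X.U
  have h5 : ∑ B ∈ (σ \ X.U).powerset, finrank F (Nn X a σ B) = finrank F (Nn X a (σ ∩ X.U) ∅) := by
    have h6 : ∀ B, finrank F (Nn X a σ B) = finrank F (Nn X a σ ∅) := fun B =>
      Nat.eq_of_mul_eq_mul_right (by positivity : 0 < 2 ^ σ.card) ((h2 B).trans (h2 ∅).symm)
    rw [Finset.sum_congr rfl fun B _ => h6 B, Finset.sum_const, Finset.card_powerset, smul_eq_mul]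
    refine Nat.eq_of_mul_eq_mul_right (by positivity : 0 < 2 ^ (σ ∩ X.U).card) ?_
    rw [h3, ← h2 ∅, ← h4, pow_add]
    ring
  rw [h5] at h1
  exact h1

/-- the vectors that lift to all the faces -/
theorem D_dim (δ : ℕ) (hδ : ∀ w, w ∉ X.U → finrank F (Pw X a w true ⊓ Pw X a w false : Submodule F (Y → F)) ≤ δ)
    (hdim : ∀ T : Finset V, G.IsClique (T : Set V) → finrank F (ET F a T) * 2 ^ T.card = Fintype.card Y)
    (S : Finset (Finset (Fin X.n))) : (∀ σ ∈ S, X.z σ ≠ 0) →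
    finrank F (Nn X a X.U ∅) ≤ finrank F (Nn X a X.U ∅ ⊓ ⨅ σ ∈ S, Is X a σ : Submodule F (Y → F)) +
      S.card * (2 ^ X.n * δ) := by
  classical
  induction S using Finset.induction_on with
  | empty =>
    intro _
    rw [Finset.card_empty, zero_mul, add_zero]
    refine Submodule.finrank_mono (le_inf le_rfl ?_)
    simp
  | insert σ S hσS ih =>
    intro h
    have h1 := ih fun τ hτ => h τ (Finset.mem_insert_of_mem hτ)
    have h2 := Is_dim X a δ hδ hdim σ (h σ (Finset.mem_insert_self _ _))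
    have h3 := Submodule.finrank_sup_add_finrank_inf_eq
      (Nn X a X.U ∅ ⊓ ⨅ σ ∈ S, Is X a σ : Submodule F (Y → F)) (Is X a σ)
    have h4 : (Nn X a X.U ∅ ⊓ ⨅ σ ∈ S, Is X a σ : Submodule F (Y → F)) ⊔ Is X a σ ≤ Nn X a (σ ∩ X.U) ∅ :=
      sup_le (inf_le_left.trans (NU_le X a σ)) (Is_le X a σ)
    have h5 := Submodule.finrank_mono h4
    have h6 : (Nn X a X.U ∅ ⊓ ⨅ σ ∈ S, Is X a σ : Submodule F (Y → F)) ⊓ Is X a σ ≤
        Nn X a X.U ∅ ⊓ ⨅ τ ∈ insert σ S, Is X a τ := by
      rw [Finset.iInf_insert]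
      exact le_inf (inf_le_left.trans inf_le_left) (le_inf inf_le_right (inf_le_left.trans inf_le_right))
    have h7 := Submodule.finrank_mono h6
    have h8 : 2 ^ (σ \ X.U).card * δ ≤ 2 ^ X.n * δ := by
      refine Nat.mul_le_mul_right δ (Nat.pow_le_pow_right (by norm_num) ?_)
      have := Finset.card_le_univ (σ \ X.U)
      rwa [Fintype.card_fin] at this
    rw [Finset.card_insert_of_notMem hσS, add_mul, one_mul]
    omega

/-- chains on the lifts that map to zero -/
def Rr : Submodule F (Finset V → Y → F) where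
  carrier := {e | (∀ T, e T ≠ 0 → ∃ σ B, B ⊆ σ \ X.U ∧ T = lf X σ B) ∧
    (∀ τ B, B ⊆ τ \ X.U → ∀ w ∈ τ \ X.U, e (lf X τ B) ∈ Pw X a w (decide (w ∈ B))) ∧
    ∀ τ, ∑ B ∈ (τ \ X.U).powerset, gg (fB X B) τ • e (lf X τ B) = 0}
  add_mem' := by
    rintro e f ⟨h1, h2, h3⟩ ⟨h4, h5, h6⟩
    refine ⟨fun T hT => ?_, fun τ B hB w hw => add_mem (h2 τ B hB w hw) (h5 τ B hB w hw), fun τ => ?_⟩
    · by_cases h : e T = 0
      · refine h4 T fun h' => hT ?_
        rw [Pi.add_apply, h, h', add_zero]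
      · exact h1 T h
    · simp only [Pi.add_apply, smul_add, Finset.sum_add_distrib, h3, h6, add_zero]
  zero_mem' := ⟨fun T hT => absurd rfl hT, fun _ _ _ _ _ => zero_mem _, fun τ => by simp⟩
  smul_mem' := by
    rintro c e ⟨h1, h2, h3⟩
    refine ⟨fun T hT => h1 T fun h => hT (by rw [Pi.smul_apply, h, smul_zero]),
      fun τ B hB w hw => Submodule.smul_mem _ c (h2 τ B hB w hw), fun τ => ?_⟩
    have h4 : ∀ B, gg (fB X B) τ • (c • e) (lf X τ B) = c • (gg (fB X B) τ • e (lf X τ B)) := fun B => by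
      rw [Pi.smul_apply]
      exact smul_comm _ _ _
    rw [Finset.sum_congr rfl fun B _ => h4 B, ← Finset.smul_sum, h3, smul_zero]

theorem Rr_dim (δ : ℕ) (hδ : ∀ w, w ∉ X.U → finrank F (Pw X a w true ⊓ Pw X a w false : Submodule F (Y → F)) ≤ δ) :
    finrank F (Rr X a) ≤ 2 ^ X.n * (2 ^ X.n * δ) := by
  classical
  let Ψ : Rr X a →ₗ[F] ∀ τ : Finset (Fin X.n), Zf (Pw X a) (τ \ X.U) :=
    { toFun := fun e τ => ⟨fun B => if B ⊆ τ \ X.U then gg (fB X B) τ • e.1 (lf X τ B) else 0, by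
        refine ⟨fun B hB => if_neg hB, fun B hB w hw => ?_, ?_⟩
        · beta_reduce
          rw [if_pos hB]
          exact zsmul_mem (e.2.2.1 τ B hB w hw) _
        · rw [Finset.sum_congr rfl fun B hB => if_pos (Finset.mem_powerset.1 hB)]
          exact e.2.2.2 τ⟩
      map_add' := fun e f => by
        refine funext fun τ => Subtype.ext (funext fun B => ?_)
        show (if B ⊆ τ \ X.U then gg (fB X B) τ • (e.1 (lf X τ B) + f.1 (lf X τ B)) else 0) =
          (if B ⊆ τ \ X.U then gg (fB X B) τ • e.1 (lf X τ B) else 0) +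
          (if B ⊆ τ \ X.U then gg (fB X B) τ • f.1 (lf X τ B) else 0)
        split_ifs
        · rw [smul_add]
        · rw [add_zero]
      map_smul' := fun c e => by
        refine funext fun τ => Subtype.ext (funext fun B => ?_)
        show (if B ⊆ τ \ X.U then gg (fB X B) τ • (c • e.1 (lf X τ B)) else 0) =
          c • (if B ⊆ τ \ X.U then gg (fB X B) τ • e.1 (lf X τ B) else 0)
        split_ifs
        · exact smul_comm _ _ _
        · rw [smul_zero] }
  have hΨ : Function.Injective Ψ := by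
    intro e f hef
    refine Subtype.ext (funext fun T => ?_)
    have key : ∀ σ B, B ⊆ σ \ X.U → e.1 (lf X σ B) = f.1 (lf X σ B) := by
      intro σ B hB
      have h1 : (if B ⊆ σ \ X.U then gg (fB X B) σ • e.1 (lf X σ B) else 0) =
          (if B ⊆ σ \ X.U then gg (fB X B) σ • f.1 (lf X σ B) else 0) :=
        congrFun (congrArg Subtype.val (congrFun hef σ)) B
      rw [if_pos hB, if_pos hB] at h1
      have h2 := congrArg (fun m => gg (fB X B) σ • m) h1
      simp only [smul_smul, gg_sq, one_smul] at h2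
      exact h2
    by_cases he : e.1 T = 0
    · by_cases hf : f.1 T = 0
      · rw [he, hf]
      · obtain ⟨σ, B, hB, rfl⟩ := f.2.1 T hf
        exact key σ B hB
    · obtain ⟨σ, B, hB, rfl⟩ := e.2.1 T he
      exact key σ B hB
  have h1 := LinearMap.finrank_le_finrank_of_injective hΨ
  rw [Module.finrank_pi_fintype] at h1
  refine h1.trans ?_
  have h2 : ∀ τ ∈ (Finset.univ : Finset (Finset (Fin X.n))), finrank F (Zf (Pw X a) (τ \ X.U)) ≤ 2 ^ X.n * δ := by
    intro τ _
    have h3 := Zf_le (Pw X a) δ (τ \ X.U) (fun w hw => hδ w (Finset.mem_sdiff.1 hw).2)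
    have h4 : 2 ^ (τ \ X.U).card * δ ≤ 2 ^ X.n * δ := by
      refine Nat.mul_le_mul_right δ (Nat.pow_le_pow_right (by norm_num) ?_)
      have := Finset.card_le_univ (τ \ X.U)
      rwa [Fintype.card_fin] at this
    omega
  refine (Finset.sum_le_sum h2).trans ?_
  rw [Finset.sum_const, Finset.card_univ, Fintype.card_finset, Fintype.card_fin, smul_eq_mul]

/-- chains on the lifts with a given image -/
def Qw (A : Set V) : Submodule F ((Finset V → Y → F) × (Y → F)) where
  carrier := {x | x.1 ∈ KK G (pull F a) A ∅ (d + 1) ∧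
    (∀ T, x.1 T ≠ 0 → ∃ σ B, B ⊆ σ \ X.U ∧ T = lf X σ B) ∧ ∀ σ, s X x.1 σ = X.z σ • x.2}
  add_mem' := by
    rintro x y ⟨h1, h2, h3⟩ ⟨h4, h5, h6⟩
    refine ⟨add_mem h1 h4, fun T hT => ?_, fun σ => ?_⟩
    · by_cases h : x.1 T = 0
      · refine h5 T fun h' => hT ?_
        rw [Prod.fst_add, Pi.add_apply, h, h', add_zero]
      · exact h2 T h
    · rw [Prod.snd_add, smul_add, ← h3, ← h6]
      unfold s
      simp only [Prod.fst_add, Pi.add_apply, smul_add, Finset.sum_add_distrib]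
  zero_mem' := by
    refine ⟨zero_mem _, fun T hT => absurd rfl hT, fun σ => ?_⟩
    unfold s
    simp
  smul_mem' := by
    rintro c x ⟨h1, h2, h3⟩
    refine ⟨Submodule.smul_mem _ c h1, fun T hT => h2 T fun h => hT (by rw [Prod.smul_fst, Pi.smul_apply, h,
      smul_zero]), fun σ => ?_⟩
    rw [Prod.smul_snd, smul_comm, ← h3]
    unfold s
    rw [Finset.smul_sum]
    refine Finset.sum_congr rfl fun B _ => ?_
    rw [Prod.smul_fst, Pi.smul_apply]
    exact smul_comm _ _ _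

theorem Qw_dim (A : Set V) : finrank F (Qw X a A) ≤ finrank F (ZZ G (pull F a) A ∅ (d + 1)) + finrank F (Rr X a) := by
  classical
  let θ : Qw X a A →ₗ[F] Rr X a :=
    { toFun := fun x => ⟨bd F x.1.1, by
        refine ⟨fun T hT => bd_supp X x.1.1 x.2.2.1 T hT, fun τ B hB w hw => ?_, fun τ => ?_⟩
        · have h1 := (mem_KK.1 (bd_mem_KK x.2.1)).2 (lf X τ B) (fB X B w)
            (Or.inl ((mem_lf X τ B _).2 ⟨w, (Finset.mem_sdiff.1 hw).1, rfl⟩))
          intro t ht y
          rw [Finset.mem_singleton] at ht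
          rw [ht]
          exact congrFun h1 y
        · have h1 := s_bd X x.1.1 (fun T hT => by
            obtain ⟨σ, B, _, h⟩ := x.2.2.1 T hT
            exact ⟨σ, B, h⟩) τ
          unfold s at h1
          rw [h1]
          have h2 : ∀ w ∈ τᶜ, sg w τ • (∑ B ∈ ((insert w τ) \ X.U).powerset,
              gg (fB X B) (insert w τ) • x.1.1 (lf X (insert w τ) B)) =
              (sg w τ • X.z (insert w τ)) • x.1.2 := by
            intro w _
            rw [show (∑ B ∈ ((insert w τ) \ X.U).powerset,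
              gg (fB X B) (insert w τ) • x.1.1 (lf X (insert w τ) B)) = X.z (insert w τ) • x.1.2 from
              x.2.2.2 (insert w τ), smul_assoc]
          rw [Finset.sum_congr rfl h2, ← Finset.sum_smul, X.z_cyc, zero_smul]⟩
      map_add' := fun x y => Subtype.ext (map_add (bd F) _ _)
      map_smul' := fun c x => Subtype.ext (map_smul (bd F) _ _) }
  let κ : LinearMap.ker θ →ₗ[F] ZZ G (pull F a) A ∅ (d + 1) :=
    { toFun := fun x => ⟨x.1.1.1, x.1.2.1, congrArg Subtype.val (show θ x.1 = 0 from x.2)⟩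
      map_add' := fun x y => rfl
      map_smul' := fun c x => rfl }
  have hκ : Function.Injective κ := by
    intro x y hxy
    have h1 : x.1.1.1 = y.1.1.1 := congrArg Subtype.val hxy
    refine Subtype.ext (Subtype.ext (Prod.ext h1 ?_))
    obtain ⟨σ, hσ⟩ : ∃ σ, X.z σ ≠ 0 := by
      by_contra h
      push Not at h
      exact X.z_ne (funext h)
    have h2 := x.1.2.2.2 σ
    have h3 := y.1.2.2.2 σ
    rw [h1, h3] at h2
    have h4 := congrArg (fun m => (X.z σ)⁻¹ • m) h2
    simp only [smul_smul, inv_mul_cancel₀ hσ, one_smul] at h4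
    exact h4.symm
  have h1 := LinearMap.finrank_le_finrank_of_injective hκ
  have h2 := LinearMap.finrank_range_add_finrank_ker θ
  have h3 := Submodule.finrank_le (LinearMap.range θ)
  omega

theorem D_le (A : Set V) (hA : ∀ v b, X.j v b ∈ A) (S : Finset (Finset (Fin X.n))) (hS : ∀ σ, X.z σ ≠ 0 → σ ∈ S) :
    (Nn X a X.U ∅ ⊓ ⨅ σ ∈ S, Is X a σ : Submodule F (Y → F)) ≤ (Qw X a A).map (LinearMap.snd F _ _) := by
  classical
  rintro m ⟨-, hm⟩
  have h1 : ∀ σ, ∃ μ : Finset (Fin X.n) → Y → F, X.z σ ≠ 0 → ((∀ B, μ B ∈ Nn X a σ B) ∧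
      ∑ B ∈ (σ \ X.U).powerset, μ B = m) := by
    intro σ
    by_cases hσ : X.z σ = 0
    · exact ⟨0, fun h => absurd hσ h⟩
    · have h2 : m ∈ Is X a σ := (Submodule.mem_iInf _).1 ((Submodule.mem_iInf _).1 hm σ) (hS σ hσ)
      obtain ⟨μ, hμ⟩ := (Submodule.mem_iSup_finset_iff_exists_sum _ _).1 h2
      exact ⟨fun B => (μ B : Y → F), fun _ => ⟨fun B => (μ B).2, hμ⟩⟩
  choose μ hμ using h1
  obtain ⟨c, hc⟩ : ∃ c : Finset V → Y → F, ∀ T, c T = ∑ σ ∈ Finset.univ.filter (fun σ => X.z σ ≠ 0),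
      ∑ B ∈ (σ \ X.U).powerset, if lf X σ B = T then gg (fB X B) σ • (X.z σ • μ σ B) else 0 := ⟨_, fun _ => rfl⟩
  have hc1 : ∀ σ B, B ⊆ σ \ X.U → c (lf X σ B) = gg (fB X B) σ • (X.z σ • μ σ B) := by
    intro σ B hB
    rw [hc]
    by_cases hσ : X.z σ = 0
    · rw [hσ, zero_smul, smul_zero]
      refine Finset.sum_eq_zero fun σ' hσ' => Finset.sum_eq_zero fun B' hB' => ?_
      refine if_neg fun h => ?_
      obtain ⟨h3, -⟩ := lf_inj X (Finset.mem_powerset.1 hB') hB h
      exact (Finset.mem_filter.1 hσ').2 (h3 ▸ hσ)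
    · rw [Finset.sum_eq_single σ, Finset.sum_eq_single B, if_pos rfl]
      · intro B' hB' hne
        refine if_neg fun h => hne ?_
        exact (lf_inj X (Finset.mem_powerset.1 hB') hB h).2
      · exact fun h => absurd (Finset.mem_powerset.2 hB) h
      · intro σ' _ hne
        refine Finset.sum_eq_zero fun B' hB' => if_neg fun h => hne ?_
        exact (lf_inj X (Finset.mem_powerset.1 hB') hB h).1
      · exact fun h => absurd (show σ ∈ Finset.univ.filter (fun σ => X.z σ ≠ 0) from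
          Finset.mem_filter.2 ⟨Finset.mem_univ _, hσ⟩) h
  have hc2 : ∀ T, c T ≠ 0 → ∃ σ B, X.z σ ≠ 0 ∧ B ⊆ σ \ X.U ∧ T = lf X σ B := by
    intro T hT
    rw [hc] at hT
    obtain ⟨σ, hσ, h3⟩ := Finset.exists_ne_zero_of_sum_ne_zero hT
    obtain ⟨B, hB, h4⟩ := Finset.exists_ne_zero_of_sum_ne_zero h3
    refine ⟨σ, B, (Finset.mem_filter.1 hσ).2, Finset.mem_powerset.1 hB, ?_⟩
    by_contra h
    exact h4 (if_neg (fun h' => h h'.symm))
  refine ⟨(c, m), ⟨?_, fun T hT => ?_, fun σ => ?_⟩, rfl⟩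
  · rw [mem_KK]
    refine ⟨fun T hT => ?_, fun T t ht => ?_⟩
    · by_contra h
      obtain ⟨σ, B, h3, h4, h5⟩ := hc2 T h
      apply hT
      rw [h5]
      refine ⟨?_, ?_, ?_⟩
      · intro x hx y hy hxy
        obtain ⟨v, hv, rfl⟩ := (mem_lf X σ B x).1 (Finset.mem_coe.1 hx)
        obtain ⟨w, hw, rfl⟩ := (mem_lf X σ B y).1 (Finset.mem_coe.1 hy)
        exact X.clique σ h3 v hv w hw (fun h => hxy (by rw [h])) _ _
      · intro x hx
        obtain ⟨v, hv, rfl⟩ := (mem_lf X σ B x).1 (Finset.mem_coe.1 hx)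
        exact hA _ _
      · rw [lf_card]
        exact X.z_card σ h3
    · have ht' : t ∈ T := ht.resolve_right (Set.notMem_empty t)
      have h3 : c T ∈ ET F a T := by
        rw [hc]
        refine Submodule.sum_mem _ fun σ hσ => Submodule.sum_mem _ fun B hB => ?_
        split_ifs with h
        · rw [← h]
          exact zsmul_mem (Submodule.smul_mem _ _ ((hμ σ (Finset.mem_filter.1 hσ).2).1 B)) _
        · exact zero_mem _
      funext y
      exact h3 t ht' y
  · obtain ⟨σ, B, _, h4, h5⟩ := hc2 T hT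
    exact ⟨σ, B, h4, h5⟩
  · show s X c σ = X.z σ • m
    unfold s
    rw [Finset.sum_congr rfl fun B hB => by rw [hc1 σ B (Finset.mem_powerset.1 hB), smul_smul, gg_sq, one_smul]]
    by_cases hσ : X.z σ = 0
    · rw [hσ, zero_smul]
      refine Finset.sum_eq_zero fun B _ => zero_smul _ _
    · rw [← Finset.smul_sum, (hμ σ hσ).2]

/-- the lower bound of the dimension of the space of cycles -/
theorem cyc_dim (δ : ℕ) (hδ : ∀ w, w ∉ X.U → finrank F (Pw X a w true ⊓ Pw X a w false : Submodule F (Y → F)) ≤ δ)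
    (hdim : ∀ T : Finset V, G.IsClique (T : Set V) → finrank F (ET F a T) * 2 ^ T.card = Fintype.card Y)
    (A : Set V) (hA : ∀ v b, X.j v b ∈ A) :
    finrank F (Nn X a X.U ∅) ≤ finrank F (ZZ G (pull F a) A ∅ (d + 1)) + 2 * (2 ^ X.n * (2 ^ X.n * δ)) := by
  classical
  have h1 := D_dim X a δ hδ hdim (Finset.univ.filter (fun σ => X.z σ ≠ 0)) (fun σ hσ => (Finset.mem_filter.1 hσ).2)
  have h2 := D_le X a A hA (Finset.univ.filter (fun σ => X.z σ ≠ 0))
    (fun σ hσ => Finset.mem_filter.2 ⟨Finset.mem_univ _, hσ⟩)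
  have h3 := Submodule.finrank_mono h2
  have h4 : finrank F ((Qw X a A).map (LinearMap.snd F (Finset V → Y → F) (Y → F))) ≤ finrank F (Qw X a A) :=
    Submodule.finrank_map_le _ _
  have h5 := Qw_dim X a A
  have h6 := Rr_dim X a δ hδ
  have h7 : (Finset.univ.filter (fun σ => X.z σ ≠ 0)).card * (2 ^ X.n * δ) ≤ 2 ^ X.n * (2 ^ X.n * δ) := by
    refine Nat.mul_le_mul_right _ ?_
    have := Finset.card_le_univ (Finset.univ.filter (fun σ => X.z σ ≠ 0))
    rwa [Fintype.card_finset, Fintype.card_fin] at this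
  omega

end Run7.h636.LT.P1
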