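import Pool.Agent.Run7.h636.LT.P1a
import Pool.Agent.Run7.h636.LT.P1d

/-!
# Project LT (helper636): P1, growth of the number of top-dimensional cycles
-/

set_option autoImplicit false

noncomputable section

namespace Run7.h636.LT.P1

open Module Pool.Agent.N496.LT Pool.Agent.W907.SG Pool.Agent.W397.SG Pool.Agent.Y132.SI

theorem main : Pool.Agent.N496.LT.P1 := by
  intro V F _ _ _ G d X ε h2 hε
  classical
  obtain ⟨E0, hE01, hE02⟩ := exists_tor G
  obtain ⟨m, hm⟩ := exists_nat_gt ((2 * (2 ^ X.n * 2 ^ X.n) : ℝ) / ε)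
  have hm' : (2 * (2 ^ X.n * 2 ^ X.n) : ℝ) < m * ε := (div_lt_iff₀ hε).1 hm
  have hm0 : 0 < m := by
    rcases Nat.eq_zero_or_pos m with h | h
    · rw [h] at hm'
      have : (0 : ℝ) < 2 * (2 ^ X.n * 2 ^ X.n) := by positivity
      simp at hm'
      linarith
    · exact h
  let E1 : Finset (W G) := (Finset.univ.filter fun v => v ∉ X.U).biUnion fun v =>
    (Finset.Ico 1 m).image fun k => ((cox G).simple (X.j v true) * (cox G).simple (X.j v false)) ^ k
  refine ⟨E0 ∪ E1, ?_, ?_⟩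
  · rw [Finset.mem_union]
    rintro (h | h)
    · exact hE01 h
    · obtain ⟨v, hv, h3⟩ := Finset.mem_biUnion.1 h
      obtain ⟨k, hk, h4⟩ := Finset.mem_image.1 h3
      have h5 := X.j_adj v (Finset.mem_filter.1 hv).2
      exact pow_ne G _ _ h5.1 h5.2 k (by have := (Finset.mem_Ico.1 hk).1; omega) h4
  intro Y _ P A hA
  have hdim : ∀ T : Finset V, G.IsClique (T : Set V) → finrank F (ET F P.a T) * 2 ^ T.card = Fintype.card Y :=
    ET_dim' h2 G P.a P.inv P.comm (fun T t ht hc => exists_sigma G P.a P.ev P.ev_one P.ev_mul P.ev_simple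
      (fun T hT g hg hg1 x => P.free g (Finset.mem_union_left _ (hE02 T hT g hg hg1)) x) T t ht hc)
  have hδ : ∀ w, w ∉ X.U → finrank F (Pw X P.a w true ⊓ Pw X P.a w false : Submodule F (Y → F)) ≤
      Fintype.card Y / m := by
    intro w hw
    rw [Nat.le_div_iff_mul_le hm0]
    let t : Equiv.Perm Y := ⟨fun y => P.a (X.j w false) (P.a (X.j w true) y),
      fun y => P.a (X.j w true) (P.a (X.j w false) y), fun y => by beta_reduce; rw [P.inv, P.inv],
      fun y => by beta_reduce; rw [P.inv, P.inv]⟩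
    have ht : ∀ y, t y = P.ev y ((cox G).simple (X.j w true) * (cox G).simple (X.j w false)) := by
      intro y
      rw [P.ev_mul, P.ev_simple, P.ev_simple]
      rfl
    have htk : ∀ (k : ℕ) y, (t ^ k) y = P.ev y (((cox G).simple (X.j w true) * (cox G).simple (X.j w false)) ^ k) := by
      intro k
      induction k with
      | zero =>
        intro y
        rw [pow_zero, pow_zero, P.ev_one]
        rfl
      | succ k ih =>
        intro y
        rw [pow_succ', Equiv.Perm.mul_apply, ih, ht, ← P.ev_mul, pow_succ]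
    refine inv_small t m (fun k h1 h3 y => ?_) _ ?_
    · rw [htk]
      refine P.free _ (Finset.mem_union_right _ (Finset.mem_biUnion.2 ⟨w, Finset.mem_filter.2
        ⟨Finset.mem_univ _, hw⟩, Finset.mem_image.2 ⟨k, Finset.mem_Ico.2 ⟨h1, h3⟩, rfl⟩⟩)) y
    · rintro f ⟨hf1, hf2⟩ y
      show f (P.a (X.j w false) (P.a (X.j w true) y)) = f y
      rw [hf2 _ (Finset.mem_singleton_self _), hf1 _ (Finset.mem_singleton_self _), neg_neg]
  have h3 := cyc_dim X P.a (Fintype.card Y / m) hδ hdim A hA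
  have h4 : finrank F (Nn X P.a X.U ∅) * 2 ^ X.U.card = Fintype.card Y := by
    have hc : G.IsClique ((lf X X.U ∅ : Finset V) : Set V) := by
      intro x hx y hy hxy
      obtain ⟨v, hv, rfl⟩ := (mem_lf X _ _ x).1 (Finset.mem_coe.1 hx)
      obtain ⟨w, hw, rfl⟩ := (mem_lf X _ _ y).1 (Finset.mem_coe.1 hy)
      have h5 := X.cliqueU v hv w hw (fun h => hxy (by rw [h]))
      unfold fB
      rw [decide_eq_false (Finset.notMem_empty v), decide_eq_false (Finset.notMem_empty w), ← X.j_U v hv,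
        ← X.j_U w hw]
      exact h5
    have h := hdim _ hc
    rwa [lf_card] at h
  have h5 : ((1 / 2 : ℝ) ^ X.U.card) * Fintype.card Y = finrank F (Nn X P.a X.U ∅) := by
    have h6 : (Fintype.card Y : ℝ) = finrank F (Nn X P.a X.U ∅) * 2 ^ X.U.card := by
      rw [← h4]
      push_cast
      ring
    rw [h6, one_div, inv_pow]
    field_simp
  have h6 : (finrank F (Nn X P.a X.U ∅) : ℝ) ≤ finrank F (ZZ G (pull F P.a) A ∅ (d + 1)) +
      2 * (2 ^ X.n * (2 ^ X.n * ((Fintype.card Y / m : ℕ) : ℝ))) := by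
    exact_mod_cast h3
  have h7 : ((Fintype.card Y / m : ℕ) : ℝ) * m ≤ Fintype.card Y := by
    exact_mod_cast Nat.div_mul_le_self _ _
  have h8 : 2 * (2 ^ X.n * (2 ^ X.n * ((Fintype.card Y / m : ℕ) : ℝ))) ≤ ε * Fintype.card Y := by
    have h9 : 2 * (2 ^ X.n * (2 ^ X.n * ((Fintype.card Y / m : ℕ) : ℝ))) =
        (2 * (2 ^ X.n * 2 ^ X.n)) * ((Fintype.card Y / m : ℕ) : ℝ) := by ring
    rw [h9]
    calc (2 * (2 ^ X.n * 2 ^ X.n)) * ((Fintype.card Y / m : ℕ) : ℝ) ≤ (m * ε) * ((Fintype.card Y / m : ℕ) : ℝ) :=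
          mul_le_mul_of_nonneg_right hm'.le (Nat.cast_nonneg _)
      _ = ε * (((Fintype.card Y / m : ℕ) : ℝ) * m) := by ring
      _ ≤ ε * Fintype.card Y := mul_le_mul_of_nonneg_left h7 hε.le
  rw [sub_mul, h5]
  linarith

end Run7.h636.LT.P1
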