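import Pool.Agent.Run7.h636.LT.ASM
import Pool.Agent.Run7.h636.LT.C3
import Pool.Agent.Run7.h636.LT.P1
import Pool.Agent.N496.LT.C1
import Pool.Agent.N496.LT.C2
import Pool.Agent.N496.LT.E1
import Pool.Agent.N496.LT.E2

/-!
# Project LT (helper636): the main theorems from the pieces
-/

set_option autoImplicit false

noncomputable section

namespace Run7.h636.LT.Fin

open Pool.Agent.N496.LT Run7.h636.LT Pool.Agent.W907.SG
open Pool.Agent.TH652.Above (HSph)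

theorem main3S (h2G : P2G) (h3A : P3A) (h4B : P4B) (h4R : P4R) (h4I : S_P4I) (hT1 : S_TRZ1) (hT2 : S_TRZ2)
    (hS : S_SMITH) (hP : S_PAIR) (hB : S_BT) (hINJ : S_INJ) (hRF : S_RFD) (h5I : S_P5I) (hTRL : S_TRL)
    (hPRL : S_PRL) (hSTR : S_STR) (hEUL : S_EUL) (hMOM : S_MOM) : Main3S := by
  intro d N H hd hH f hf hf1 hfi p _ hp Z c hc
  obtain ⟨n, S, A, κ, Z', h1, h2, h3, h4, h5, h6, h7⟩ := build (c2 c1) C3.main e1 e2 H hd hH f hf hf1 hfi Z c hc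
  have h8 := mainG3 P1.main h2G h3A (ASM.p3T hT1 hT2 hS hP hB) h4B h4R (ASM.p4A h4I h4R hRF)
    (ASM.p5A hINJ h5I hRF) (ASM.p5B hTRL hPRL hSTR hEUL hMOM) h3 κ h4 h5 p hp Z' h6
  rw [h7, Fintype.card_fin] at h8
  exact ⟨n, S, h1, h2, h8⟩

theorem main2S (h2G : P2G) (h3A : P3A) (h4B : P4B) (h4R : P4R) (hT1 : S_TRZ1) (hT2 : S_TRZ2)
    (hS : S_SMITH) (hP : S_PAIR) (hB : S_BT) : Main2S := by
  intro d N H hd hH f hf hf1 hfi p _ hp Z c hc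
  obtain ⟨n, S, A, κ, Z', h1, h2, h3, h4, h5, h6, h7⟩ := build (c2 c1) C3.main e1 e2 H hd hH f hf hf1 hfi Z c hc
  have h8 := mainG2 P1.main h2G h3A (ASM.p3S hT1 hT2 hS hP hB) h4B h4R h3 κ h4 h5 p hp Z' h6
  rw [h7, Fintype.card_fin] at h8
  exact ⟨n, S, h1, h2, h8⟩

end Run7.h636.LT.Fin
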