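import Pool.Agent.Run7.h636.LT.Pub2
import Pool.Agent.Run7.h636.LT.Fin

/-!
# Project LT (helper636): comparison of the definitions of `Pub.lean`, `Pub2.lean` with those of `N496/LT`
-/

set_option autoImplicit false

open scoped Matrix

noncomputable section

namespace Run7.h636.Pub

open Module Filter

theorem Cx.cyc_eq {Γ : Type} [Group Γ] (C : Cx Γ) (n : ℕ) : C.cyc n = C.old.cyc n :=
  Submodule.span_eq (C.old.cyc n)

theorem Cx.bdy_eq {Γ : Type} [Group Γ] (C : Cx Γ) (n : ℕ) : C.bdy n = C.old.bdy n :=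
  Submodule.span_eq (C.old.bdy n)

theorem Cx.tors_eq {Γ : Type} [Group Γ] (C : Cx Γ) (n : ℕ) : C.tors n = C.old.torsOrder n := by
  unfold Cx.tors Pool.Agent.N496.LT.GCx.torsOrder
  rw [C.cyc_eq, C.bdy_eq]
  rfl

theorem quot_old {Γ : Type} [Group Γ] (C : Cx Γ) (N : Subgroup Γ) [N.Normal] : (C.quot N).old = C.old.quot N := rfl

theorem prod_old {Γ Δ : Type} [Group Γ] [Group Δ] (C : Cx Γ) (E : Cx Δ) : (C.prod E).old = C.old.prod E.old := rfl

theorem free_old {Γ : Type} [Group Γ] (C : Cx Γ) : C.free = C.old.toFree := rfl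

theorem dav_old {V : Type} [Fintype V] [LinearOrder V] (G : SimpleGraph V) :
    (dav G).old = Pool.Agent.N496.LT.davis G := rfl

theorem tg_old {Γ : Type} [Group Γ] (C : Cx Γ) (m : ℕ) (N : Subgroup Γ) [N.Normal] :
    tg C m N = Real.log ((C.old.quot N).torsOrder m) / N.index := by
  unfold tg
  rw [Cx.tors_eq, quot_old]

/-! ### spheres -/

section sphere

variable {V : Type} [Fintype V] [LinearOrder V]

theorem mem_KK' (G : SimpleGraph V) (A : Set V) (i : ℕ) (c : Finset V → ℝ) :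
    c ∈ Pool.Agent.W907.SG.KK G (fun _ => (- LinearMap.id : ℝ →ₗ[ℝ] ℝ)) A ∅ i ↔ c ∈ Chn G A i := by
  rw [Pool.Agent.W907.SG.mem_KK]
  constructor
  · rintro ⟨h, -⟩ T hT
    by_contra h1
    exact hT (h T h1)
  · intro h
    refine ⟨fun T hT => ?_, fun T t _ => rfl⟩
    by_contra h1
    exact hT (h T h1)

theorem bd_eq (c : Finset V → ℝ) : Pool.Agent.W907.SG.bd ℝ c = bnd c := by
  funext T
  rw [Pool.Agent.W907.SG.bd_apply]
  unfold bnd
  refine Finset.sum_congr rfl fun v _ => ?_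
  rw [zsmul_eq_mul]
  rfl

theorem Cyc_eq (G : SimpleGraph V) (A : Set V) (i : ℕ) :
    Cyc G A i = Pool.Agent.W907.SG.ZZ G (fun _ => (- LinearMap.id : ℝ →ₗ[ℝ] ℝ)) A ∅ i := by
  unfold Cyc
  have h : {c | c ∈ Chn G A i ∧ bnd c = 0} =
      (Pool.Agent.W907.SG.ZZ G (fun _ => (- LinearMap.id : ℝ →ₗ[ℝ] ℝ)) A ∅ i : Set (Finset V → ℝ)) := by
    ext c
    show (c ∈ Chn G A i ∧ bnd c = 0) ↔ c ∈ Pool.Agent.W907.SG.KK G _ A ∅ i ∧ c ∈ LinearMap.ker _
    rw [mem_KK', LinearMap.mem_ker, bd_eq]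
  rw [h, Submodule.span_eq]

theorem Bdy_eq (G : SimpleGraph V) (A : Set V) (i : ℕ) :
    Bdy G A i = Pool.Agent.W907.SG.BB G (fun _ => (- LinearMap.id : ℝ →ₗ[ℝ] ℝ)) A ∅ i := by
  unfold Bdy
  have h : bnd '' Chn G A (i + 1) =
      (Pool.Agent.W907.SG.BB G (fun _ => (- LinearMap.id : ℝ →ₗ[ℝ] ℝ)) A ∅ i : Set (Finset V → ℝ)) := by
    ext c
    constructor
    · rintro ⟨b, hb, rfl⟩
      exact ⟨b, (mem_KK' G A (i + 1) b).2 hb, bd_eq b⟩
    · rintro ⟨b, hb, rfl⟩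
      exact ⟨b, (mem_KK' G A (i + 1) b).1 hb, (bd_eq b).symm⟩
  rw [h, Submodule.span_eq]

theorem HS_iff (k : ℕ) (G : SimpleGraph V) : HS k G ↔ Pool.Agent.TH652.Above.HSph k G := by
  unfold HS Pool.Agent.TH652.Above.HSph
  refine forall_congr' fun S => forall_congr' fun _ => forall_congr' fun i => ?_
  have h1 : finrank ℝ (Bdy G (lk G S) i) ≤ finrank ℝ (Cyc G (lk G S) i) := by
    rw [Cyc_eq, Bdy_eq]
    exact Submodule.finrank_mono (Pool.Agent.W907.SG.BB_le_ZZ G _ _ _ i)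
  show _ ↔ Pool.Agent.W907.SG.beta G _ (lk G S) ∅ i = _
  unfold Pool.Agent.W907.SG.beta
  rw [← Cyc_eq, ← Bdy_eq]
  omega

end sphere

theorem Rea_eq {N : ℕ} (G : SimpleGraph (Fin N)) : Rea G = Pool.Agent.R782.Bal.Rea G := by
  ext x
  unfold Rea Pool.Agent.R782.Bal.Rea
  simp only [Set.mem_setOf_eq, finsum_eq_sum_of_fintype]

theorem Sub_of {m n : ℕ} {G : SimpleGraph (Fin m)} {H : SimpleGraph (Fin n)} (h : Pool.Agent.N496.LT.Sub G H) :
    Sub G H := by
  induction h with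
  | refl => exact Sub.refl
  | step H s t hst _ ih =>
    refine Sub.step H s t _ hst ⟨fun a b => ?_, fun b => ?_⟩ ih
    · constructor
      · rintro (⟨a', b', h1, h2, h3, h4⟩ | ⟨h1, -⟩ | ⟨h1, -⟩)
        · rw [Fin.castSucc_inj] at h1 h2
          subst h1 h2
          exact ⟨h3, h4⟩
        · exact absurd h1 (Fin.castSucc_lt_last a).ne
        · exact absurd h1 (Fin.castSucc_lt_last b).ne
      · rintro ⟨h1, h2⟩
        exact Or.inl ⟨a, b, rfl, rfl, h1, h2⟩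
    · constructor
      · rintro (⟨a', b', h1, h2, h3, h4⟩ | ⟨-, b', h1, h2⟩ | ⟨h1, -⟩)
        · exact absurd h1.symm (Fin.castSucc_lt_last a').ne
        · rw [Fin.castSucc_inj] at h1
          subst h1
          exact h2
        · exact absurd h1 (Fin.castSucc_lt_last b).ne
      · intro h
        exact Or.inr (Or.inl ⟨rfl, b, rfl, h⟩)

/-- the doubled cycle in the sense of `N496/LT` -/
def Dbl.old {F : Type} [Field F] {V : Type} {G : SimpleGraph V} {d : ℕ} (Z : Dbl F G d) :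
    Pool.Agent.N496.LT.Dbl F G d where
  n := Z.n
  z := Z.z
  j := Z.j
  U := Z.U
  z_ne := Z.z_ne
  z_card := Z.z_card
  z_cyc := fun τ => by
    rw [← Z.z_cyc τ]
    refine Finset.sum_congr rfl fun v _ => ?_
    rw [zsmul_eq_mul]
    rfl
  j_ne := Z.j_ne
  j_U := Z.j_U
  j_adj := Z.j_adj
  clique := Z.clique
  cliqueU := Z.cliqueU

end Run7.h636.Pub
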