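import Pool.Agent.N496.LT.Stm

/-!
# Project LT (helper636), P1: two non-adjacent reflections

The product of two different non-adjacent simple reflections has infinite order (`pow_ne`); the functions that are
anti-invariant under both form a space of dimension at most `|Y| / m` if the first `m - 1` powers of the product act
freely (`inf_small`).
-/

set_option autoImplicit false

noncomputable section

namespace Run7.h636.LT.P1

open Module Pool.Agent.N496.LT Pool.Agent.W907.SG Pool.Agent.W461.SGN

/-- reflections of the integers -/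
def rf (c : ℤ) : Equiv.Perm ℤ := ⟨fun x => c - x, fun x => c - x, fun x => by ring, fun x => by ring⟩

theorem rf_apply (c x : ℤ) : rf c x = c - x := rfl

theorem rf_mul (c : ℤ) : rf c * rf c = 1 := by
  ext x
  show c - (c - x) = x
  ring

theorem pow_ne {V : Type} (G : SimpleGraph V) (s t : V) (hst : s ≠ t) (h : ¬ G.Adj s t) (k : ℕ) (hk : k ≠ 0) :
    ((cox G).simple s * (cox G).simple t) ^ k ≠ 1 := by
  classical
  have hl : (cox G).IsLiftable (fun v => if v = s then rf 0 else if v = t then rf 1 else 1) := by
    refine liftable G _ ?_ ?_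
    · intro v
      split_ifs
      · exact rf_mul _
      · exact rf_mul _
      · exact one_mul _
    · intro u v huv
      have hne := huv.ne
      by_cases h1 : u = s
      · by_cases h2 : v = t
        · exact absurd (h1 ▸ h2 ▸ huv) h
        · have h3 : v ≠ s := fun e => hne (h1.trans e.symm)
          rw [if_neg h3, if_neg h2, mul_one, one_mul]
      · by_cases h2 : u = t
        · by_cases h3 : v = s
          · exact absurd (h3 ▸ h2 ▸ huv.symm) h
          · have h4 : v ≠ t := fun e => hne (h2.trans e.symm)
            rw [if_neg h3, if_neg h4, mul_one, one_mul]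
        · rw [if_neg h1, if_neg h2, mul_one, one_mul]
  intro h0
  let φ : W G →* Equiv.Perm ℤ := (cox G).toCoxeterSystem.lift ⟨_, hl⟩
  have hφ : ∀ v, φ ((cox G).simple v) = if v = s then rf 0 else if v = t then rf 1 else 1 := fun v =>
    CoxeterSystem.lift_apply_simple _ _ v
  have h1 := congrArg φ h0
  rw [map_pow, map_mul, hφ, hφ, if_pos rfl, if_neg hst.symm, if_pos rfl, map_one] at h1
  have h2 : ∀ j : ℕ, ∀ x : ℤ, ((rf 0 * rf 1) ^ j) x = x - j := by
    intro j
    induction j with
    | zero => intro x; simp
    | succ j ih =>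
      intro x
      rw [pow_succ, Equiv.Perm.mul_apply, ih]
      show 0 - (1 - x) - (j : ℤ) = x - ((j + 1 : ℕ) : ℤ)
      push_cast
      ring
  have h3 := congrArg (fun e : Equiv.Perm ℤ => e 0) h1
  simp only [h2, Equiv.Perm.one_apply] at h3
  omega

/-- functions invariant under a permutation with long cycles -/
theorem inv_small {Y F : Type} [Field F] [Fintype Y] (t : Equiv.Perm Y) (m : ℕ)
    (hm : ∀ k : ℕ, 1 ≤ k → k < m → ∀ y, (t ^ k) y ≠ y) (S : Submodule F (Y → F))
    (hS : ∀ f ∈ S, ∀ y, f (t y) = f y) : finrank F S * m ≤ Fintype.card Y := by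
  classical
  have hf : ∀ f ∈ S, ∀ x y : Y, t.SameCycle x y → f x = f y := by
    intro f hf x y hxy
    obtain ⟨i, rfl⟩ := hxy
    have h1 : ∀ (n : ℕ) (x : Y), f ((t ^ n) x) = f x := by
      intro n
      induction n with
      | zero => intro x; simp
      | succ n ih =>
        intro x
        rw [pow_succ, Equiv.Perm.mul_apply, ih, hS f hf]
    rcases Int.eq_nat_or_neg i with ⟨n, rfl | rfl⟩
    · rw [zpow_natCast, h1]
    · have h2 := h1 n ((t ^ (-(n : ℤ))) x)
      rw [← zpow_natCast, ← Equiv.Perm.mul_apply, ← zpow_add, add_neg_cancel, zpow_zero,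
        Equiv.Perm.one_apply] at h2
      exact h2
  let Q := Quotient (Equiv.Perm.SameCycle.setoid t)
  have hcard : Fintype.card Q * m ≤ Fintype.card Y := by
    have h1 : Function.Injective (fun x : Q × Fin m => (t ^ (x.2 : ℕ)) (Quotient.out x.1)) := by
      rintro ⟨a, i⟩ ⟨b, j⟩ h
      simp only at h
      have hab : a = b := by
        rw [← Quotient.out_eq a, ← Quotient.out_eq b]
        refine Quotient.sound ?_
        refine ⟨(-(j : ℤ) + i), ?_⟩
        rw [zpow_add, Equiv.Perm.mul_apply, zpow_natCast, h, ← zpow_natCast, ← Equiv.Perm.mul_apply,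
          ← zpow_add, neg_add_cancel, zpow_zero, Equiv.Perm.one_apply]
      subst hab
      rw [Prod.mk.injEq]
      refine ⟨rfl, ?_⟩
      ext
      by_contra hij
      rcases Nat.lt_or_gt_of_ne hij with h1 | h1
      · refine hm (j - i) (by omega) (by omega) (Quotient.out a) ?_
        have h2 : (t ^ (i : ℕ)) ((t ^ ((j : ℕ) - i)) (Quotient.out a)) = (t ^ (i : ℕ)) (Quotient.out a) := by
          rw [← Equiv.Perm.mul_apply, ← pow_add, Nat.add_sub_cancel' h1.le, h]
        exact (t ^ (i : ℕ)).injective h2
      · refine hm (i - j) (by omega) (by omega) (Quotient.out a) ?_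
        have h2 : (t ^ (j : ℕ)) ((t ^ ((i : ℕ) - j)) (Quotient.out a)) = (t ^ (j : ℕ)) (Quotient.out a) := by
          rw [← Equiv.Perm.mul_apply, ← pow_add, Nat.add_sub_cancel' h1.le, h]
        exact (t ^ (j : ℕ)).injective h2
    have h2 := Fintype.card_le_of_injective _ h1
    rwa [Fintype.card_prod, Fintype.card_fin] at h2
  refine le_trans (Nat.mul_le_mul_right m ?_) hcard
  let θ : S →ₗ[F] (Q → F) :=
    { toFun := fun f q => f.1 (Quotient.out q)
      map_add' := fun f g => rfl
      map_smul' := fun c f => rfl }
  have hθ : Function.Injective θ := by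
    intro f g hfg
    ext y
    have h1 := congrFun hfg (Quotient.mk _ y)
    have h2 : t.SameCycle (Quotient.out (Quotient.mk (Equiv.Perm.SameCycle.setoid t) y)) y := by
      have h3 := Quotient.mk_out (s := Equiv.Perm.SameCycle.setoid t) y
      exact h3
    rw [← hf f.1 f.2 _ _ h2, ← hf g.1 g.2 _ _ h2]
    exact h1
  have h3 := LinearMap.finrank_le_finrank_of_injective hθ
  rwa [Module.finrank_fintype_fun_eq_card] at h3

end Run7.h636.LT.P1
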