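import Pool.Agent.N496.LT.Defs

/-!
# Project LT (helper636): definitions for the pieces on torsion and on the `L²`-torsion of products

`ZC`: finite graded complexes of free abelian groups given by one integer matrix (rows = cells, chains are row
vectors). `Bock`: a family of classes of order divisible by `p` in the homology, with dual cocycles modulo `p`.
-/

set_option autoImplicit false

open scoped Matrix

noncomputable section

namespace Run7.h636.LT

open Module Pool.Agent.N496.LT Pool.Agent.TH630.Tor Pool.Agent.Helper993.FK Pool.Agent.Helper993.Delta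

/-! ### integer complexes -/

/-- A finite graded chain complex of finitely generated free abelian groups; chains are row vectors. -/
structure ZC where
  /-- the cells -/
  I : Type
  [fin : Fintype I]
  [dec : DecidableEq I]
  /-- the dimension of a cell -/
  deg : I → ℕ
  /-- the boundary -/
  M : Matrix I I ℤ
  M_deg : ∀ i j, M i j ≠ 0 → deg i = deg j + 1
  M_sq : M * M = 0

attribute [instance] ZC.fin ZC.dec

namespace ZC

/-- The `n`-cycles. -/
def cyc (C : ZC) (n : ℕ) : Submodule ℤ (C.I → ℤ) where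
  carrier := {v | (∀ i, C.deg i ≠ n → v i = 0) ∧ v ᵥ* C.M = 0}
  add_mem' := by
    rintro v w ⟨h1, h2⟩ ⟨h3, h4⟩
    refine ⟨fun i hi => by simp [h1 i hi, h3 i hi], ?_⟩
    rw [Matrix.add_vecMul, h2, h4, add_zero]
  zero_mem' := ⟨fun i _ => rfl, Matrix.zero_vecMul _⟩
  smul_mem' := by
    rintro c v ⟨h1, h2⟩
    refine ⟨fun i hi => by simp [h1 i hi], ?_⟩
    rw [Matrix.smul_vecMul, h2, smul_zero]

/-- The `n`-boundaries. -/
def bdy (C : ZC) (n : ℕ) : Submodule ℤ (C.I → ℤ) where
  carrier := {v | ∃ u : C.I → ℤ, (∀ i, C.deg i ≠ n + 1 → u i = 0) ∧ u ᵥ* C.M = v}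
  add_mem' := by
    rintro _ _ ⟨v, h1, rfl⟩ ⟨w, h3, rfl⟩
    exact ⟨v + w, fun i hi => by simp [h1 i hi, h3 i hi], Matrix.add_vecMul _ _ _⟩
  zero_mem' := ⟨0, fun i _ => rfl, Matrix.zero_vecMul _⟩
  smul_mem' := by
    rintro c _ ⟨v, h1, rfl⟩
    exact ⟨c • v, fun i hi => by simp [h1 i hi], Matrix.smul_vecMul _ _ _⟩

/-- The order of the torsion subgroup of the `n`-th homology group. -/
def tors (C : ZC) (n : ℕ) : ℕ := torsionCard (C.cyc n) (C.bdy n)

/-- The rank of the boundary map on the `n`-chains with coefficients in `F`. -/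
def rk (C : ZC) (F : Type) [Field F] (n : ℕ) : ℕ :=
  ((C.M.map (Int.cast : ℤ → F)).submatrix (fun x : {x : C.I // C.deg x = n} => x.1) id).rank

/-- The product of two complexes. -/
def prod (C E : ZC) : ZC where
  I := C.I × E.I
  deg x := C.deg x.1 + E.deg x.2
  M := Matrix.of fun x y =>
    (if x.2 = y.2 then C.M x.1 y.1 else 0) + (if x.1 = y.1 then (-1) ^ C.deg x.1 * E.M x.2 y.2 else 0)
  M_deg x y h := by
    by_contra h0
    apply h
    rw [Matrix.of_apply]
    have h1 : (if x.2 = y.2 then C.M x.1 y.1 else 0) = 0 := by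
      split_ifs with h2
      · by_contra h3
        have := C.M_deg _ _ h3
        exact h0 (by rw [this, h2]; ring)
      · rfl
    have h4 : (if x.1 = y.1 then (-1) ^ C.deg x.1 * E.M x.2 y.2 else 0) = 0 := by
      split_ifs with h2
      · have h3 : E.M x.2 y.2 = 0 := by
          by_contra h3
          have := E.M_deg _ _ h3
          exact h0 (by rw [this, h2]; ring)
        rw [h3, mul_zero]
      · rfl
    rw [h1, h4, add_zero]
  M_sq := prod_sq_gen (RingHom.id ℤ) (RingHom.id ℤ) (fun a b => mul_comm _ _) C.M E.M C.deg C.M_deg C.M_sq E.M_sq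

end ZC

/-- `t` classes in the `n`-th homology with orders divisible by `p`, with `a i • y i = ∂ x i`, and dual cocycles
modulo `p` in the degrees `n` (`φ`) and `n + 1` (`ψ`). -/
structure Bock (C : ZC) (p n t : ℕ) where
  x : Fin t → C.I → ℤ
  y : Fin t → C.I → ℤ
  a : Fin t → ℤ
  φ : Fin t → C.I → ZMod p
  ψ : Fin t → C.I → ZMod p
  x_deg : ∀ k i, C.deg i ≠ n + 1 → x k i = 0
  y_deg : ∀ k i, C.deg i ≠ n → y k i = 0
  φ_deg : ∀ k i, C.deg i ≠ n → φ k i = 0
  ψ_deg : ∀ k i, C.deg i ≠ n + 1 → ψ k i = 0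
  bd : ∀ k, x k ᵥ* C.M = a k • y k
  a_ne : ∀ k, a k ≠ 0
  a_dvd : ∀ k, (p : ℤ) ∣ a k
  φy : ∀ k l, ∑ i, φ k i * ((y l i : ℤ) : ZMod p) = if k = l then 1 else 0
  ψx : ∀ k l, ∑ i, ψ k i * ((x l i : ℤ) : ZMod p) = if k = l then 1 else 0
  φ_cyc : ∀ k i, ∑ j, ((C.M i j : ℤ) : ZMod p) * φ k j = 0
  ψ_cyc : ∀ k i, ∑ j, ((C.M i j : ℤ) : ZMod p) * ψ k j = 0

/-- The integer complex of a complex over a finite group. -/
def zc {Q : Type} [Group Q] [Fintype Q] (C : GCx Q) (hM : (C.mat ℤ) * (C.mat ℤ) = 0)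
    (hd : ∀ x y, C.mat ℤ x y ≠ 0 → C.deg x.1 = C.deg y.1 + 1) : ZC :=
  letI := Classical.decEq (C.ι × Q)
  { I := C.ι × Q
    deg := fun x => C.deg x.1
    M := C.mat ℤ
    M_deg := hd
    M_sq := hM }

/-! ### Laplacians -/

/-- The adjoint of a square matrix over the integral group ring. -/
def adj {G I : Type} [Group G] (A : Matrix I I (MonoidAlgebra ℤ G)) : Matrix I I (MonoidAlgebra ℤ G) :=
  Matrix.of fun i j => MonoidAlgebra.mapDomain (fun g : G => g⁻¹) (A j i)

/-- The Laplacian in all the degrees: `D D* + D* D`. -/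
def lap {G : Type} [Group G] (C : GCx G) : Matrix C.ι C.ι (MonoidAlgebra ℤ G) :=
  C.D * adj C.D + adj C.D * C.D

/-- The coefficient of the unit element in the diagonal entries of the powers of the Laplacian. -/
def mom {G : Type} [Group G] (C : GCx G) (k : ℕ) (i : C.ι) : ℤ := ((lap C ^ k) i i).coeff 1

end Run7.h636.LT
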