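import Pool.Agent.Run7.h636.LT.Defs
import Pool.Agent.N496.LT.FinS

/-!
# Project LT (helper636): the open pieces

The assembly of the main theorems `Main3S` (MP_98dedd_gt, hard) and `Main2S` (MP_228c3b_gt) from the closed
propositions `C3, P1, P2G, P3A, P3T, P3S, P4A, P4B, P4R, P5A, P5B` is in the starting tree
(`Pool/Agent/N496/LT/{Main,MainG,AsmS,FinS}.lean`). Here `P3T, P3S, P4A, P5A, P5B` are split further.

Every piece `X` is a theorem `main : S_X` (or `main : Pool.Agent.N496.LT.P1`, ...) in the namespace `Run7.<seat>.LT.X`,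
file `Pool/Agent/Run7/<seat>/LT/X.lean`.
-/

set_option autoImplicit false

open scoped Matrix

noncomputable section

namespace Run7.h636.LT

open Module Pool.Agent.N496.LT Pool.Agent.TH630.Tor Pool.Agent.Helper993.FK Pool.Agent.Helper993.Delta
open Pool.Agent.W907.SG

/-! ### torsion -/

/-- SMITH (about 200 lines). Proof. Put `T : (C.I → ℤ) →ₗ (C.I → ℤ)`, `T v = (v restricted to the degree n + 1) ᵥ* C.M`,
`N = range T`, contained in the functions supported in the degree `n`. `Submodule.smithNormalForm` for `N` in the free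
module of the functions supported in the degree `n` (or in `C.I → ℤ`: extend carefully so that `y` is in degree `n`): bases
`b` of the ambient module, `c` of `N`, `c i = a i • b (f i)`, `a i ≠ 0`. Choose `x i` in degree `n + 1` with
`T (x i) = c i`, `y i = b (f i)`. `ψ i v` = the `i`-th coordinate of `T v ∈ N` in the basis `c`, modulo `p` (as a row:
`ψ i e = coordinate of T (single e 1)`), `φ i` = the coordinate `f i` in the basis `b`, modulo `p`. Use only the `i` with
`p ∣ a i`. Their number is at least `rk ℝ (n+1) - rk (ZMod p) (n+1)`: `rk ℝ (n+1) = finrank N = #c`, and the rows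
`(x i) ᵥ* C.M = a i • b (f i)` with `p ∤ a i` are linearly independent modulo `p` (their images under the coordinates
`f i` are a diagonal matrix), so `rk (ZMod p) (n+1) ≥ #{i | p ∤ a i}`. -/
def S_SMITH : Prop := ∀ (C : ZC) (p : ℕ) [Fact p.Prime] (n : ℕ),
  Nonempty (Bock C p n (C.rk ℝ (n + 1) - C.rk (ZMod p) (n + 1)))

/-- PAIR (about 250 lines). Proof. Write `(x ⊗ y) (i, j) = x i * y j`; then
`(x ⊗ y) ᵥ* (C.prod E).M = (x ᵥ* C.M) ⊗ y + (-1)^k x ⊗ (y ᵥ* E.M)` for `x` in degree `k`; `y_i ᵥ* C.M = 0` as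
`a_i • y_i` is a boundary. Let `(x_i, y_i, a_i, φ_i, ψ_i)`, `(x'_j, y'_j, b_j, φ'_j, ψ'_j)` be the data, `g = gcd(a_i, b_j)`
(`p ∣ g`, `g ≠ 0`), `a_i = g a`, `b_j = g b`, `u a + v b (-1)^m = 1` (Bezout). Index set `Fin s × Fin t ≃ Fin (s * t)`
(`finProdFinEquiv`).
Degree `m + n`: `x = u x_i ⊗ y'_j + v y_i ⊗ x'_j`, `y = y_i ⊗ y'_j`, coefficient `g`; `φ = φ_i ⊗ φ'_j`,
`ψ = a ψ_i ⊗ φ'_j + (-1)^m b φ_i ⊗ ψ'_j`.
Degree `m + n + 1`: `x = x_i ⊗ x'_j`, `y = a y_i ⊗ x'_j + (-1)^(m+1) b x_i ⊗ y'_j`, coefficient `g`; `ψ = ψ_i ⊗ ψ'_j`,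
`φ = u φ_i ⊗ ψ'_j - v ψ_i ⊗ φ'_j`. Products of cocycles are cocycles, mixed values vanish by degree. -/
def S_PAIR : Prop := ∀ (C E : ZC) (p : ℕ) [Fact p.Prime] (m n s t : ℕ), Nonempty (Bock C p m s) →
  Nonempty (Bock E p n t) →
  Nonempty (Bock (C.prod E) p (m + n) (s * t)) ∧ Nonempty (Bock (C.prod E) p (m + n + 1) (s * t))

/-- BT (about 100 lines). Proof. The `y k` are cycles, and `a k • y k` is a boundary, so they define torsion classes in
`cyc n / bdy n`. The map `(Fin t → ℤ) → torsion`, `m ↦ ∑ m k [y k]`: if it is zero then `∑ m k y k = u ᵥ* M`, and `φ l`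
gives `p ∣ m l`. So the classes of `∑ m k y k`, `0 ≤ m k < p`, are different, `p ^ t` elements. The torsion subgroup is
finite (finitely generated torsion group: `Module.finite_of_fg_torsion` or similar), so `Nat.card` is its cardinality. -/
def S_BT : Prop := ∀ (C : ZC) (p : ℕ) [Fact p.Prime] (n t : ℕ), Nonempty (Bock C p n t) → p ^ t ≤ C.tors n

/-- `Z` is the integer complex of the complex `C` over the group `Q` -/
def Rep {Q : Type} [Group Q] (C : GCx Q) (Z : ZC) : Prop :=
  ∃ e : C.ι × Q ≃ Z.I, (∀ x, Z.deg (e x) = C.deg x.1) ∧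
    ∀ x y, Z.M (e x) (e y) = (C.D x.1 y.1).coeff (x.2⁻¹ * y.2)

/-- TRZ1 (about 120 lines). Proof: `Z.I = C.ι × Q`, `M = C.mat ℤ`; `M * M = 0` as `(mat (A B)) = mat A * mat B`
(compare `opMatrix_mul` in `Pool/Agent/Helper993/LogTrace.lean`). The cycles and boundaries correspond under
`v ↦ (x ↦ (v x.1).coeff x.2)` (an additive equivalence of `C.ι → MonoidAlgebra ℤ Q` with `C.ι × Q → ℤ` as `Q` is finite),
`(v ᵥ* C.D) ↦ (v ᵥ* C.mat ℤ)`; `torsionCard` is invariant under isomorphisms. -/
def S_TRZ1 : Prop := ∀ (Q : Type) [Group Q] [Fintype Q] (C : GCx Q),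
  (∃ Z : ZC, Rep C Z) ∧
  ∀ Z : ZC, Rep C Z → (∀ n, C.torsOrder n = Z.tors n) ∧
    ∀ (F : Type) [Field F] (n : ℕ), C.rk F n = Z.rk F n

/-- TRZ2 (about 150 lines). Proof: the bijection `((i, j), (g, h) N.prod N') ↦ ((i, g N), (j, h N'))`; the coefficient of
`mapDomain (mk' (N.prod N'))` of `mapDomain inl a` at the class of `(g, h)` is `0` unless `h ∈ N'`, in which case it is the
coefficient of `mapDomain (mk' N) a` at the class of `g`; the same for `inr`. -/
def S_TRZ2 : Prop := ∀ (G H : Type) [Group G] [Group H] (C : GCx G) (E : GCx H) (N : Subgroup G) (N' : Subgroup H)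
  [N.Normal] [N'.Normal] (Z Z' : ZC), Rep (C.quot N) Z → Rep (E.quot N') Z' →
  Rep ((C.prod E).quot (N.prod N')) (Z.prod Z')

/-! ### `L²`-torsion of products -/

/-- TRL (about 120 lines): the Laplacian of `C.toFree` in degree `n` is the block of `lap C`. Proof. `lap C` preserves the
degree (`D_deg`); `lapM` (`Pool/Agent/TH630/Tor/Cx.lean`) in degree `n` is its submatrix along
`(Fintype.equivFin {i // C.deg i = n}).symm` (use `sum_deg` of `N496/LT/Defs.lean` for the products); powers by induction. -/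
def S_TRL : Prop := ∀ (G : Type) [Group G] (C : GCx G) (n k : ℕ),
  ∑ a : Fin (C.toFree.rank n), ((((C.toFree.lapM n) ^ k) a a).coeff 1 : ℤ) =
    ∑ i : C.ι, if C.deg i = n then mom C k i else 0

/-- STR (about 80 lines). Proof. `L = D D* + D* D`, `D D = 0 = D* D*`, so `L ^ k = (D D*) ^ k + (D* D) ^ k` for `k ≥ 1`. The
functional `τ A = ∑ i, (A i i).coeff 1` satisfies `τ (A B) = τ (B A)`. With `ε = diagonal (-1)^deg`, `ε D = - D ε`, so
`τ (ε (D D*)^k) = - τ (D ε D* (D D*)^(k-1)) = - τ (ε (D* D)^k)`. -/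
def S_STR : Prop := ∀ (G : Type) [Group G] (C : GCx G) (k : ℕ), 1 ≤ k →
  ∑ i : C.ι, (-1) ^ C.deg i * mom C k i = 0

/-- PRL (about 150 lines). Proof. `lap (C.prod E) = A + B` with `A ((i,j),(i',j')) = [j = j'] inl (lap C i i')`,
`B = [i = i'] inr (lap E j j')` (the mixed terms cancel because of the signs `(-1)^deg`, `D_deg`; the square of a sign is
`1`). `A B = B A`; `Commute.add_pow`; the entry of `A^l B^(k-l)` at `((i,j),(i,j))` is
`inl ((lap C)^l i i) * inr ((lap E)^(k-l) j j)`, with coefficient at `(1,1)` the product of the coefficients at `1`. -/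
def S_PRL : Prop := ∀ (G H : Type) [Group G] [Group H] (C : GCx G) (E : GCx H) (k : ℕ) (i : C.ι) (j : E.ι),
  mom (C.prod E) k (i, j) = ∑ l ∈ Finset.range (k + 1), (k.choose l : ℤ) * (mom C l i * mom E (k - l) j)

/-- INJ (about 60 lines). Proof. `dimKer T = ∑ ‖P (unitVec a)‖² = 0`, `P` the projection on the kernel, so
`⟨v, unitVec a⟩ = 0` for all `v` in the kernel; the kernel is invariant under left translations (`rMul` commutes with them,
see `exists_translate`, `inj_of_bump` in `Pool/Agent/TH630/Tor/Limit.lean`), so all the coordinates of `v` vanish. -/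
def S_INJ : Prop := ∀ (G : Type) [Group G] (C : FreeCx G) (n : ℕ), C.l2betti n = 0 →
  ∀ v, C.laplacian n v = 0 → v = 0

/-- RFD (about 80 lines): over residually finite groups injective integral matrices have positive determinant. Proof.
`traceVal_gm_le` in `Pool/Agent/Helper993/Luck.lean` gives the bound `2 r log KK` for `A * adjZ A` (injective as
`rMul A` is injective and `A` is square: `ker (A A*) = ker A`, `rMul (A * adjZ A) = adjoint (rMul A) ∘ rMul A`), and
`log_integrable` / the second half of `conclude` in `TH630/Tor/Limit.lean` gives `0 < fkDet`. `r = 0`: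
`fkDet_pos_of_eq_zero`. -/
def S_RFD : Prop := ∀ (G : Type) [Group G], ResFin G → ∀ (r : ℕ) (A : Matrix (Fin r) (Fin r) (MonoidAlgebra ℤ G)),
  (∀ v, rMul (A.map toQ) v = 0 → v = 0) → 0 < fkDet (rMul (A.map toQ))

/-- EUL (about 150 lines). Hypotheses `S_STR`, `S_TRL`, `S_INJ` may be used. Proof. Let `T_n ≥ 0` be the Laplacians, `‖T_n‖ ≤ K`.
Str(1) = Str((1 - T/K)^(2k)) for all `k` by STR (binomial theorem). As `T_n` is injective, for every `ε` the trace of
`(1 - T_n/K)^(2k)` is at most `traceVal (bump δ) + rank * (1 - δ/K)^(2k) ≤ ε` for large `k` (`bump_small`,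
`traceVal_mono` in `Pool/Agent/Helper993/Approx.lean`; `(1 - x/K)^(2k) ≤ bump δ x + ...` up to replacing `δ` by `δ/2`). So
`|∑ (-1)^deg| ≤ ε * dim`. -/
def S_EUL : Prop := ∀ (G : Type) [Group G] (C : GCx G), (∀ n, C.toFree.l2betti n = 0) →
  ∑ i : C.ι, ((-1) ^ C.deg i : ℤ) = 0

/-- MOM (about 200 lines). Proof. `ν_n = specMeas unitVec (rMul (A n))`, the spectral measure of `T_n* T_n = T_n ^ 2`, is a
finite measure on a bounded interval `[0, K]` with moments `∫ x^k dν_n = traceVal (T_n^2) (x^k) = ∑ a, ((A n)^(2k) a a).coeff 1`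
(`inner_rMul_unitVec`, `rMul_mul`; `traceVal_near`/`integral_spectralMeasure`). So the two positive measures
`∑_{c n > 0} c n ν_n` and `∑_{c n < 0} |c n| ν_n` have the same moments, hence the same integrals of compactly supported
continuous functions (Weierstrass), hence they are equal, and `∑ c n ∫_{(0,∞)} log dν_n = 0`; `log (fkDet)` is half of
the integral, as `fkDet > 0` means that `log` is integrable. -/
def S_MOM : Prop := ∀ (G : Type) [Group G] (m : ℕ) (r : Fin m → ℕ)
  (A : ∀ n, Matrix (Fin (r n)) (Fin (r n)) (MonoidAlgebra ℤ G)) (c : Fin m → ℝ),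
  (∀ n, 0 ≤ rMul ((A n).map toQ)) → (∀ n, 0 < fkDet (rMul ((A n).map toQ))) →
  (∀ k : ℕ, ∑ n, c n * ∑ a, (((((A n) ^ k) a a).coeff 1 : ℤ) : ℝ) = 0) →
  ∑ n, c n * Real.log (fkDet (rMul ((A n).map toQ))) = 0

/-- P5I (about 250 lines). Proof. The Laplacian of the product in degree `n` is the sum of two positive operators, `A` = the
Laplacian of `C` in the first variable, `B` = that of `E` in the second variable (as in PRL, mixed terms cancel). If
`(A + B) v = 0` then `⟨A v, v⟩ = 0`, so `A v = 0`, that is, for fixed `(j, h)` the slice `v (·, j) (·, h)`, an element of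
`ℓ²(G)^(rank (n - deg j))`, is in the kernel of the Laplacian of `C` in degree `n - deg j`. -/
def S_P5I : Prop := ∀ (G H : Type) [Group G] [Group H] (C : GCx G) (E : GCx H),
  (∀ n v, C.toFree.laplacian n v = 0 → v = 0) → ∀ n v, (C.prod E).toFree.laplacian n v = 0 → v = 0

/-- P4I (about 250 lines). Proof. Let `v` be in the kernel; then `∂ v = 0` and `∂* v = 0`. As in
`Pool/Agent/N496/CV/ConvB.lean` (`Psi`, `psi_mulD`, `psi_anti`, `psi_inj`, for arbitrary functions on the kernel) put
`c w T = Psi v T w` (real and imaginary parts, or real coefficients): it is anti-invariant, supported on cliques with `n`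
elements, square summable, a cycle, and a cocycle (`∂* v = 0`; adjoint of the boundary formula), so `IsHarm G n c`, and
`c = 0` by `L2Van`, `v = 0` by `psi_inj`. -/
def S_P4I : Prop := ∀ (V : Type) [Fintype V] [LinearOrder V] (G : SimpleGraph V), (∀ i, L2Van G i) →
  ∀ n v, (davis G).toFree.laplacian n v = 0 → v = 0

end Run7.h636.LT
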