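import Mathlib

/-!
# Project LT (helper636), P1: linear algebra

Families of vectors `m B`, `B ⊆ S`, with `m B` in `P w (w ∈ B)` for all `w ∈ S` and with sum zero; if all the
intersections `P w true ⊓ P w false` have dimension at most `δ` then the space of these families has dimension at
most `(2 ^ |S| - 1) δ`.
-/

set_option autoImplicit false

noncomputable section

namespace Run7.h636.LT.P1

open Module

variable {F M ι : Type} [Field F] [AddCommGroup M] [Module F M] [FiniteDimensional F M] [Fintype ι]
  [DecidableEq ι]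

/-- families with sum zero -/
def Zf (P : ι → Bool → Submodule F M) (S : Finset ι) : Submodule F (Finset ι → M) where
  carrier := {m | (∀ B, ¬ B ⊆ S → m B = 0) ∧ (∀ B, B ⊆ S → ∀ w ∈ S, m B ∈ P w (decide (w ∈ B))) ∧
    ∑ B ∈ S.powerset, m B = 0}
  add_mem' := by
    rintro a b ⟨h1, h2, h3⟩ ⟨h4, h5, h6⟩
    refine ⟨fun B hB => by simp [h1 B hB, h4 B hB], fun B hB w hw => add_mem (h2 B hB w hw) (h5 B hB w hw), ?_⟩
    simp only [Pi.add_apply, Finset.sum_add_distrib, h3, h6, add_zero]
  zero_mem' := ⟨fun _ _ => rfl, fun B hB w hw => zero_mem _, by simp⟩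
  smul_mem' := by
    rintro c a ⟨h1, h2, h3⟩
    refine ⟨fun B hB => by simp [h1 B hB], fun B hB w hw => Submodule.smul_mem _ c (h2 B hB w hw), ?_⟩
    simp only [Pi.smul_apply, ← Finset.smul_sum, h3, smul_zero]

theorem Zf_step (P : ι → Bool → Submodule F M) (S : Finset ι) (w : ι) (hw : w ∉ S) (δ : ℕ)
    (hδ : finrank F (P w true ⊓ P w false : Submodule F M) ≤ δ) :
    finrank F (Zf P (insert w S)) ≤ δ + 2 * finrank F (Zf P S) := by
  let Θ : Zf P (insert w S) →ₗ[F] M :=
    { toFun := fun m => ∑ B ∈ S.powerset, m.1 (insert w B)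
      map_add' := fun a b => by
        rw [← Finset.sum_add_distrib]
        rfl
      map_smul' := fun c a => by
        rw [RingHom.id_apply, Finset.smul_sum]
        rfl }
  have hΘ : ∀ m, Θ m = ∑ B ∈ S.powerset, m.1 (insert w B) := fun _ => rfl
  have hsum : ∀ m : Zf P (insert w S), ∑ B ∈ S.powerset, m.1 B + Θ m = 0 := by
    intro m
    have h1 := m.2.2.2
    rw [Finset.sum_powerset_insert hw] at h1
    exact h1
  have hr : LinearMap.range Θ ≤ (P w true ⊓ P w false : Submodule F M) := by
    rintro _ ⟨m, rfl⟩
    refine ⟨?_, ?_⟩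
    · rw [hΘ]
      refine Submodule.sum_mem _ fun B hB => ?_
      have h1 := m.2.2.1 (insert w B) (Finset.insert_subset_insert _ (Finset.mem_powerset.1 hB)) w
        (Finset.mem_insert_self _ _)
      rwa [decide_eq_true (Finset.mem_insert_self _ _)] at h1
    · have h1 : Θ m = - ∑ B ∈ S.powerset, m.1 B := by
        rw [eq_neg_iff_add_eq_zero, add_comm]
        exact hsum m
      rw [h1]
      refine Submodule.neg_mem _ (Submodule.sum_mem _ fun B hB => ?_)
      have h2 := Finset.mem_powerset.1 hB
      have h1 := m.2.2.1 B (h2.trans (Finset.subset_insert _ _)) w (Finset.mem_insert_self _ _)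
      rwa [decide_eq_false (fun h => hw (h2 h))] at h1
  let Ψ : LinearMap.ker Θ →ₗ[F] (Zf P S × Zf P S) :=
    { toFun := fun m => (⟨fun B => if B ⊆ S then m.1.1 B else 0, by
          refine ⟨fun B hB => if_neg hB, fun B hB v hv => ?_, ?_⟩
          · beta_reduce
            rw [if_pos hB]
            exact m.1.2.2.1 B (hB.trans (Finset.subset_insert _ _)) v (Finset.mem_insert_of_mem hv)
          · rw [Finset.sum_congr rfl fun B hB => if_pos (Finset.mem_powerset.1 hB)]
            have h1 := hsum m.1
            rwa [show Θ m.1 = 0 from m.2, add_zero] at h1⟩,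
        ⟨fun B => if B ⊆ S then m.1.1 (insert w B) else 0, by
          refine ⟨fun B hB => if_neg hB, fun B hB v hv => ?_, ?_⟩
          · beta_reduce
            rw [if_pos hB]
            have h1 := m.1.2.2.1 (insert w B) (Finset.insert_subset_insert _ hB) v (Finset.mem_insert_of_mem hv)
            have h2 : (v ∈ insert w B) = (v ∈ B) := by
              rw [Finset.mem_insert, eq_iff_iff]
              exact or_iff_right (fun h => hw (h ▸ hv))
            simpa only [h2] using h1
          · rw [Finset.sum_congr rfl fun B hB => if_pos (Finset.mem_powerset.1 hB)]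
            exact m.2⟩)
      map_add' := fun a b => by
        refine Prod.ext (Subtype.ext (funext fun B => ?_)) (Subtype.ext (funext fun B => ?_))
        · show (if B ⊆ S then a.1.1 B + b.1.1 B else 0) = (if B ⊆ S then a.1.1 B else 0) + (if B ⊆ S then b.1.1 B else 0)
          split_ifs <;> simp
        · show (if B ⊆ S then a.1.1 (insert w B) + b.1.1 (insert w B) else 0) =
            (if B ⊆ S then a.1.1 (insert w B) else 0) + (if B ⊆ S then b.1.1 (insert w B) else 0)
          split_ifs <;> simp
      map_smul' := fun c a => by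
        refine Prod.ext (Subtype.ext (funext fun B => ?_)) (Subtype.ext (funext fun B => ?_))
        · show (if B ⊆ S then c • a.1.1 B else 0) = c • (if B ⊆ S then a.1.1 B else 0)
          split_ifs <;> simp
        · show (if B ⊆ S then c • a.1.1 (insert w B) else 0) = c • (if B ⊆ S then a.1.1 (insert w B) else 0)
          split_ifs <;> simp }
  have hΨ : Function.Injective Ψ := by
    intro a b hab
    have h1 : ∀ B, (if B ⊆ S then a.1.1 B else 0) = (if B ⊆ S then b.1.1 B else 0) := fun B =>
      congrFun (congrArg Subtype.val (congrArg Prod.fst hab)) B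
    have h2 : ∀ B, (if B ⊆ S then a.1.1 (insert w B) else 0) = (if B ⊆ S then b.1.1 (insert w B) else 0) := fun B =>
      congrFun (congrArg Subtype.val (congrArg Prod.snd hab)) B
    refine Subtype.ext (Subtype.ext (funext fun B => ?_))
    by_cases hB : B ⊆ insert w S
    · by_cases hwB : w ∈ B
      · have h3 : B.erase w ⊆ S := by
          rw [← Finset.subset_insert_iff]
          exact hB
        have h4 := h2 (B.erase w)
        rwa [if_pos h3, if_pos h3, Finset.insert_erase hwB] at h4
      · have h3 : B ⊆ S := (Finset.subset_insert_iff_of_notMem hwB).1 hB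
        have h4 := h1 B
        rwa [if_pos h3, if_pos h3] at h4
    · rw [a.1.2.1 B hB, b.1.2.1 B hB]
  have h1 := LinearMap.finrank_le_finrank_of_injective hΨ
  rw [Module.finrank_prod] at h1
  have h2 := LinearMap.finrank_range_add_finrank_ker Θ
  have h3 := Submodule.finrank_mono hr
  omega

theorem Zf_le (P : ι → Bool → Submodule F M) (δ : ℕ) (S : Finset ι) :
    (∀ w ∈ S, finrank F (P w true ⊓ P w false : Submodule F M) ≤ δ) →
    finrank F (Zf P S) + δ ≤ 2 ^ S.card * δ := by
  induction S using Finset.induction_on with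
  | empty =>
    intro _
    have h1 : Zf P (∅ : Finset ι) = ⊥ := by
      rw [eq_bot_iff]
      rintro m ⟨h1, -, h2⟩
      rw [Submodule.mem_bot]
      funext B
      by_cases hB : B ⊆ ∅
      · rw [Finset.subset_empty.1 hB]
        rwa [Finset.powerset_empty, Finset.sum_singleton] at h2
      · exact h1 B hB
    rw [h1, finrank_bot]
    simp
  | insert w S hw ih =>
    intro h
    have h1 := ih fun v hv => h v (Finset.mem_insert_of_mem hv)
    have h2 := Zf_step P S w hw δ (h w (Finset.mem_insert_self _ _))
    rw [Finset.card_insert_of_notMem hw, pow_succ]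
    nlinarith

/-- the dimension of the sum of the subspaces `N B`, `B ⊆ S` -/
theorem sup_ge (P : ι → Bool → Submodule F M) (δ : ℕ) (S : Finset ι)
    (hδ : ∀ w ∈ S, finrank F (P w true ⊓ P w false : Submodule F M) ≤ δ) (N : Finset ι → Submodule F M)
    (hN : ∀ B, B ⊆ S → ∀ w ∈ S, N B ≤ P w (decide (w ∈ B))) :
    ∑ B ∈ S.powerset, finrank F (N B) ≤ finrank F (⨆ B ∈ S.powerset, N B : Submodule F M) + 2 ^ S.card * δ := by
  let Φ : (∀ B : {B // B ∈ S.powerset}, N B.1) →ₗ[F] M :=
    { toFun := fun m => ∑ B, (m B : M)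
      map_add' := fun a b => by
        rw [← Finset.sum_add_distrib]
        rfl
      map_smul' := fun c a => by
        rw [RingHom.id_apply, Finset.smul_sum]
        rfl }
  have hr : LinearMap.range Φ ≤ (⨆ B ∈ S.powerset, N B : Submodule F M) := by
    rintro _ ⟨m, rfl⟩
    refine Submodule.sum_mem _ fun B _ => ?_
    exact (le_iSup₂ (f := fun (B : Finset ι) (_ : B ∈ S.powerset) => N B) B.1 B.2) (m B).2
  let Ψ : LinearMap.ker Φ →ₗ[F] Zf P S :=
    { toFun := fun m => ⟨fun B => if h : B ∈ S.powerset then (m.1 ⟨B, h⟩ : M) else 0, by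
        refine ⟨fun B hB => dif_neg (fun h => hB (Finset.mem_powerset.1 h)), fun B hB w hw => ?_, ?_⟩
        · beta_reduce
          rw [dif_pos (Finset.mem_powerset.2 hB)]
          exact hN B hB w hw (m.1 ⟨B, _⟩).2
        · have h1 : ∑ B : {B // B ∈ S.powerset}, (m.1 B : M) = 0 := m.2
          rw [← h1, ← Finset.sum_coe_sort]
          refine Finset.sum_congr rfl fun B _ => ?_
          rw [dif_pos B.2]⟩
      map_add' := fun a b => by
        refine Subtype.ext (funext fun B => ?_)
        show (if h : B ∈ S.powerset then ((a.1 ⟨B, h⟩ + b.1 ⟨B, h⟩ : N B) : M) else 0) =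
          (if h : B ∈ S.powerset then (a.1 ⟨B, h⟩ : M) else 0) + (if h : B ∈ S.powerset then (b.1 ⟨B, h⟩ : M) else 0)
        split_ifs <;> simp
      map_smul' := fun c a => by
        refine Subtype.ext (funext fun B => ?_)
        show (if h : B ∈ S.powerset then ((c • a.1 ⟨B, h⟩ : N B) : M) else 0) =
          c • (if h : B ∈ S.powerset then (a.1 ⟨B, h⟩ : M) else 0)
        split_ifs <;> simp }
  have hΨ : Function.Injective Ψ := by
    intro a b hab
    refine Subtype.ext (funext fun B => Subtype.ext ?_)
    have h1 : (if h : B.1 ∈ S.powerset then (a.1 ⟨B.1, h⟩ : M) else 0) =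
      (if h : B.1 ∈ S.powerset then (b.1 ⟨B.1, h⟩ : M) else 0) :=
      congrFun (congrArg Subtype.val hab) B.1
    rwa [dif_pos B.2, dif_pos B.2] at h1
  have h1 := LinearMap.finrank_le_finrank_of_injective hΨ
  have h2 := LinearMap.finrank_range_add_finrank_ker Φ
  have h3 := Submodule.finrank_mono hr
  have h4 := Zf_le P δ S hδ
  rw [Module.finrank_pi_fintype] at h2
  rw [← Finset.sum_coe_sort]
  have h5 : ∑ B : {B // B ∈ S.powerset}, finrank F (N B.1) = ∑ B : {B // B ∈ S.powerset}, finrank F ↥(N B.1) := rfl
  omega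

end Run7.h636.LT.P1
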