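import Pool.Agent.Run7.h636.LT.Short

/-!
# Project LT (helper636): the definitions for the statements of the results

Right-angled Coxeter groups, the Davis complex, chain complexes over group rings, torsion of the homology of the
finite covers, triangulated spheres, edge subdivisions, doubled cycles.
-/

set_option autoImplicit false

open scoped Matrix

noncomputable section

namespace Run7.h636.Pub

open Module Pool.Agent.TH630.Tor Pool.Agent.Helper993.Delta

/-! ### right-angled Coxeter groups -/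

section cox

variable {V : Type} (G : SimpleGraph V)

open Classical in
/-- the Coxeter matrix: `m(u,v) = 2` if `u`, `v` are adjacent and `∞` (that is `0`) if they are different and not
adjacent -/
def cx : CoxeterMatrix V where
  M := Matrix.of fun u v => if u = v then 1 else if G.Adj u v then 2 else 0
  isSymm := (Pool.Agent.W907.SG.cox G).isSymm
  diagonal := (Pool.Agent.W907.SG.cox G).diagonal
  off_diagonal := (Pool.Agent.W907.SG.cox G).off_diagonal

/-- the right-angled Coxeter group of `G` -/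
def Wg : Type := (cx G).Group

instance : Group (Wg G) := inferInstanceAs (Group (cx G).Group)

/-- the generator `v` -/
def gen (v : V) : Wg G := (cx G).simple v

open Classical in
theorem cx_lift : (cx G).IsLiftable (fun v => ((fun u => if u = v then -1 else 1) : V → ℤˣ)) :=
  Pool.Agent.W461.SGN.liftable G _
    (by intro v; funext u; by_cases h : u = v <;> simp [h]) (by intro u v _; exact mul_comm _ _)

open Classical in
/-- the parity homomorphism to `(ℤ/2)^V` -/
def th : Wg G →* (V → ℤˣ) :=
  (cx G).toCoxeterSystem.lift ⟨fun v u => if u = v then -1 else 1, cx_lift G⟩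

/-- its kernel `Γ` -/
def Gam : Type := (th G).ker

instance : Group (Gam G) := inferInstanceAs (Group (th G).ker)

variable [Fintype V] [LinearOrder V]

/-- the set of the vertices with odd parity -/
def par (w : Wg G) : Finset V := Finset.univ.filter fun v => th G w v = -1

/-- the product of the generators in `A` in increasing order -/
def rep (A : Finset V) : Wg G := ((A.sort (· ≤ ·)).map (gen G)).prod

theorem mem_ker (w : Wg G) : w * (rep G (par G w))⁻¹ ∈ (th G).ker := Pool.Agent.N496.LT.mul_rep_mem G w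

/-- the element `w rep(par w)⁻¹` of `Γ` -/
def gm (w : Wg G) : Gam G := ⟨w * (rep G (par G w))⁻¹, mem_ker G w⟩

end cox

/-- the sign `(-1)^{#{u ∈ T : u < v}}` -/
def sg {V : Type} [LinearOrder V] (v : V) (T : Finset V) : ℤ := (-1) ^ (T.filter (fun u => u < v)).card

/-! ### chain complexes over group rings -/

/-- A finite based free chain complex of left modules over the integral group ring of `Γ` (chains are row vectors):
`ι` is the set of (orbits of) cells of all dimensions, `D i j` is the coefficient of the cell `j` in the boundary of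
the cell `i`. -/
structure Cx (Γ : Type) [Group Γ] where
  ι : Type
  [fin : Fintype ι]
  [dec : DecidableEq ι]
  deg : ι → ℕ
  D : Matrix ι ι (MonoidAlgebra ℤ Γ)
  D_deg : ∀ i j, D i j ≠ 0 → deg i = deg j + 1
  D_sq : D * D = 0

attribute [instance] Cx.fin Cx.dec

section cx

variable {Γ Δ : Type} [Group Γ] [Group Δ]

/-- the complex as in `N496/LT/Defs.lean` -/
def Cx.old (C : Cx Γ) : Pool.Agent.N496.LT.GCx Γ where
  ι := C.ι
  deg := C.deg
  D := C.D
  D_deg := C.D_deg
  D_sq := C.D_sq

/-- The cycles of dimension `n`. -/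
def Cx.cyc (C : Cx Γ) (n : ℕ) : Submodule ℤ (C.ι → MonoidAlgebra ℤ Γ) :=
  Submodule.span ℤ {v | (∀ i, C.deg i ≠ n → v i = 0) ∧ v ᵥ* C.D = 0}

/-- The boundaries of dimension `n`. -/
def Cx.bdy (C : Cx Γ) (n : ℕ) : Submodule ℤ (C.ι → MonoidAlgebra ℤ Γ) :=
  Submodule.span ℤ {v | ∃ u : C.ι → MonoidAlgebra ℤ Γ, (∀ i, C.deg i ≠ n + 1 → u i = 0) ∧ u ᵥ* C.D = v}

/-- The order of the torsion subgroup of the `n`-th homology group. -/
def Cx.tors (C : Cx Γ) (n : ℕ) : ℕ := torsionCard (C.cyc n) (C.bdy n)

/-- the boundary matrix of the quotient by `N` -/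
def Cx.qD (C : Cx Γ) (N : Subgroup Γ) [N.Normal] : Matrix C.ι C.ι (MonoidAlgebra ℤ (Γ ⧸ N)) :=
  C.D.map (MonoidAlgebra.mapDomainRingHom ℤ (QuotientGroup.mk' N))

theorem Cx.qD_deg (C : Cx Γ) (N : Subgroup Γ) [N.Normal] (i j : C.ι) (h : C.qD N i j ≠ 0) : C.deg i = C.deg j + 1 :=
  (C.old.quot N).D_deg i j h

theorem Cx.qD_sq (C : Cx Γ) (N : Subgroup Γ) [N.Normal] : C.qD N * C.qD N = 0 := (C.old.quot N).D_sq

/-- The chain complex of the quotient space by `N`. -/
def Cx.quot (C : Cx Γ) (N : Subgroup Γ) [N.Normal] : Cx (Γ ⧸ N) where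
  ι := C.ι
  deg := C.deg
  D := C.qD N
  D_deg := C.qD_deg N
  D_sq := C.qD_sq N

/-- the boundary matrix of a product -/
def Cx.pD (C : Cx Γ) (E : Cx Δ) : Matrix (C.ι × E.ι) (C.ι × E.ι) (MonoidAlgebra ℤ (Γ × Δ)) :=
  Matrix.of fun x y =>
    (if x.2 = y.2 then MonoidAlgebra.mapDomainRingHom ℤ (MonoidHom.inl Γ Δ) (C.D x.1 y.1) else 0) +
    (if x.1 = y.1 then (-1) ^ C.deg x.1 * MonoidAlgebra.mapDomainRingHom ℤ (MonoidHom.inr Γ Δ) (E.D x.2 y.2)
      else 0)

theorem Cx.pD_deg (C : Cx Γ) (E : Cx Δ) (x y : C.ι × E.ι) (h : C.pD E x y ≠ 0) :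
    C.deg x.1 + E.deg x.2 = C.deg y.1 + E.deg y.2 + 1 := (C.old.prod E.old).D_deg x y h

theorem Cx.pD_sq (C : Cx Γ) (E : Cx Δ) : C.pD E * C.pD E = 0 := (C.old.prod E.old).D_sq

/-- The chain complex of the product of two spaces. -/
def Cx.prod (C : Cx Γ) (E : Cx Δ) : Cx (Γ × Δ) where
  ι := C.ι × E.ι
  deg x := C.deg x.1 + E.deg x.2
  D := C.pD E
  D_deg := C.pD_deg E
  D_sq := C.pD_sq E

/-- the square of a space -/
def Cx.sq (C : Cx Γ) : Cx (Γ × Γ) := C.prod C

/-- the third power of a space -/
def Cx.cube (C : Cx Γ) : Cx (Γ × Γ × Γ) := C.prod (C.prod C)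

/-- the number of cells of dimension `n` -/
def Cx.nc (C : Cx Γ) (n : ℕ) : ℕ := Fintype.card {i : C.ι // C.deg i = n}

/-- the `a`-th cell of dimension `n` -/
def Cx.cell (C : Cx Γ) (n : ℕ) (a : Fin (C.nc n)) : C.ι := ((Fintype.equivFin {i : C.ι // C.deg i = n}).symm a).1

/-- the boundary matrix from dimension `n + 1` to dimension `n` -/
def Cx.d (C : Cx Γ) (n : ℕ) : Matrix (Fin (C.nc (n + 1))) (Fin (C.nc n)) (MonoidAlgebra ℤ Γ) :=
  Matrix.of fun a b => C.D (C.cell (n + 1) a) (C.cell n b)

theorem Cx.d_sq (C : Cx Γ) (n : ℕ) : C.d (n + 1) * C.d n = 0 := C.old.toFree.d_comp_d n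

theorem Cx.nc_zero (C : Cx Γ) (n : ℕ) (hn : Finset.univ.sup C.deg < n) : C.nc n = 0 :=
  C.old.toFree.rank_eq_zero n hn

/-- The complex `C`, one dimension at a time. -/
def Cx.free (C : Cx Γ) : FreeCx Γ where
  rank := C.nc
  dim := Finset.univ.sup C.deg
  rank_eq_zero := C.nc_zero
  d := C.d
  d_comp_d := C.d_sq

end cx

/-! ### the Davis complex -/

section davis

variable {V : Type} [Fintype V] [LinearOrder V] (G : SimpleGraph V)

/-- The orbits of the cells of the Davis complex of `Wg G` under `Γ`: `(T, A)` with `T` a clique and `A` disjoint from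
`T` is the orbit of the cube `rep A W_T`. -/
def Cell : Type := {c : Finset V × Finset V // G.IsClique (c.1 : Set V) ∧ Disjoint c.1 c.2}

open Classical in
instance : Fintype (Cell G) :=
  inferInstanceAs (Fintype {c : Finset V × Finset V // G.IsClique (c.1 : Set V) ∧ Disjoint c.1 c.2})

open Classical in
instance : DecidableEq (Cell G) :=
  inferInstanceAs (DecidableEq {c : Finset V × Finset V // G.IsClique (c.1 : Set V) ∧ Disjoint c.1 c.2})

/-- the group element `g` if `P` holds, else `0` -/
def ind {Γ : Type} [Group Γ] (P : Prop) [Decidable P] (g : Γ) : MonoidAlgebra ℤ Γ :=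
  if P then MonoidAlgebra.single g 1 else 0

/-- the unit element if `P` holds, else `0` -/
def ind1 {Γ : Type} [Group Γ] (P : Prop) [Decidable P] : MonoidAlgebra ℤ Γ := if P then 1 else 0

open Classical in
/-- the coefficient of the cell `c'` in `w W_{T - t} - w t W_{T - t}`, `w = rep A`, if `T' = T - t` -/
def ends (c c' : Cell G) (t : V) : MonoidAlgebra ℤ (Gam G) :=
  ind1 (c'.1.2 = c.1.2) - ind (c'.1.2 = insert t c.1.2) (gm G (rep G c.1.2 * gen G t))

open Classical in
/-- the part of the boundary of the cell `(T, A)` in the direction `t ∈ T` -/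
def part (c c' : Cell G) (t : V) : MonoidAlgebra ℤ (Gam G) :=
  if c'.1.1 = c.1.1.erase t then (sg t (c.1.1.erase t) : MonoidAlgebra ℤ (Gam G)) * ends G c c' t else 0

/-- the boundary: the boundary of a cube `w W_T` is the alternating sum of `w W_{T - t}` and `- w t W_{T - t}` -/
def bdM : Matrix (Cell G) (Cell G) (MonoidAlgebra ℤ (Gam G)) := Matrix.of fun c c' => ∑ t ∈ c.1.1, part G c c' t

theorem bdM_deg (c c' : Cell G) (h : bdM G c c' ≠ 0) : c.1.1.card = c'.1.1.card + 1 :=
  (Pool.Agent.N496.LT.davis G).D_deg c c' h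

theorem bdM_sq : bdM G * bdM G = 0 := (Pool.Agent.N496.LT.davis G).D_sq

/-- The cellular chain complex of the Davis complex of `Wg G` over `Γ`, the kernel of `Wg G → (ℤ/2)^V`. -/
def dav : Cx (Gam G) where
  ι := Cell G
  deg c := c.1.1.card
  D := bdM G
  D_deg := bdM_deg G
  D_sq := bdM_sq G

end davis

end Run7.h636.Pub
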