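import Pool.Agent.Run7.h636.LT.Pub

/-!
# Project LT (helper636): the definitions for the statements of the results, second part
-/

set_option autoImplicit false

noncomputable section

namespace Run7.h636.Pub

open Module Filter

/-! ### triangulated spheres -/

section sphere

variable {V : Type}

/-- the common neighbours of the vertices of `S`: the vertices of the link of `S` -/
def lk (G : SimpleGraph V) (S : Finset V) : Set V := {v | ∀ u ∈ S, G.Adj v u}

/-- the real simplicial chains of the flag complex of `G` restricted to `A`, on the simplices with `i` vertices -/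
def Chn (G : SimpleGraph V) (A : Set V) (i : ℕ) : Set (Finset V → ℝ) :=
  {c | ∀ T : Finset V, c T ≠ 0 → G.IsClique (T : Set V) ∧ (T : Set V) ⊆ A ∧ T.card = i}

variable [Fintype V] [LinearOrder V]

/-- the simplicial boundary -/
def bnd (c : Finset V → ℝ) (T : Finset V) : ℝ := ∑ v ∈ Tᶜ, (sg v T : ℝ) * c (insert v T)

/-- the cycles -/
def Cyc (G : SimpleGraph V) (A : Set V) (i : ℕ) : Submodule ℝ (Finset V → ℝ) :=
  Submodule.span ℝ {c | c ∈ Chn G A i ∧ bnd c = 0}

/-- the boundaries -/
def Bdy (G : SimpleGraph V) (A : Set V) (i : ℕ) : Submodule ℝ (Finset V → ℝ) :=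
  Submodule.span ℝ (bnd '' Chn G A (i + 1))

/-- The flag complex of `G` and all its links have the real homology of spheres: for every simplex `S` (the empty
simplex included) the reduced homology of the link of `S` is that of the sphere of dimension `k - 1 - |S|`. -/
def HS (k : ℕ) (G : SimpleGraph V) : Prop :=
  ∀ S : Finset V, G.IsClique (S : Set V) → ∀ i : ℕ,
    finrank ℝ (Cyc G (lk G S) i) = finrank ℝ (Bdy G (lk G S) i) + if i + S.card = k then 1 else 0

end sphere

/-- The geometric realization of the flag complex of `G`: the vectors with nonnegative coordinates and sum `1` whose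
support is a clique. -/
def Rea {N : ℕ} (G : SimpleGraph (Fin N)) : Set (Fin N → ℝ) :=
  {x | (∀ v, 0 ≤ x v) ∧ ∑ v, x v = 1 ∧ G.IsClique {v | x v ≠ 0}}

/-- The flag complex of `G` is a triangulation of the sphere of dimension `k - 1`: it and all its links are real
homology spheres, and its realization is embedded in the unit sphere of the euclidean space of dimension `k`. -/
def TSph (k : ℕ) {N : ℕ} (G : SimpleGraph (Fin N)) : Prop :=
  HS k G ∧ ∃ f : (Fin N → ℝ) → EuclideanSpace ℝ (Fin k),
    ContinuousOn f (Rea G) ∧ (∀ x ∈ Rea G, ‖f x‖ = 1) ∧ Set.InjOn f (Rea G)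

/-! ### edge subdivisions -/

/-- `K` is the subdivision of the edge `s t` of the graph `G` (of the flag complex of `G`): the new vertex
`Fin.last n` is adjacent to `s`, `t` and the common neighbours of `s` and `t`, and the edge `s t` is deleted. -/
def IsSd {n : ℕ} (G : SimpleGraph (Fin n)) (s t : Fin n) (K : SimpleGraph (Fin (n + 1))) : Prop :=
  (∀ a b : Fin n, K.Adj a.castSucc b.castSucc ↔ G.Adj a b ∧ s(a, b) ≠ s(s, t)) ∧
  ∀ b : Fin n, K.Adj (Fin.last n) b.castSucc ↔ b = s ∨ b = t ∨ (G.Adj s b ∧ G.Adj t b)

/-- `Sub G H`: the graph `H` is obtained from `G` by finitely many edge subdivisions. -/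
inductive Sub {m : ℕ} (G : SimpleGraph (Fin m)) : ∀ {n : ℕ}, SimpleGraph (Fin n) → Prop
  | refl : Sub G G
  | step {n : ℕ} (H : SimpleGraph (Fin n)) (s t : Fin n) (K : SimpleGraph (Fin (n + 1))) :
      H.Adj s t → IsSd H s t K → Sub G H → Sub G K

/-! ### doubled cycles -/

/-- A doubled `d`-cycle with coefficients in `F` in the flag complex of the graph `G`: `z` is a nonzero simplicial
`d`-cycle on the vertex set `Fin n`; every vertex `v` has two lifts `j v false`, `j v true` in `G`, which are
different and not adjacent, except that the vertices in `U` have only one lift; lifts of different vertices are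
different; all the lifts of the simplices with nonzero coefficient are simplices (cliques) of `G`, and so is `U`. -/
structure Dbl (F : Type) [Field F] {V : Type} (G : SimpleGraph V) (d : ℕ) where
  n : ℕ
  z : Finset (Fin n) → F
  j : Fin n → Bool → V
  U : Finset (Fin n)
  z_ne : z ≠ 0
  z_card : ∀ σ, z σ ≠ 0 → σ.card = d + 1
  z_cyc : ∀ τ : Finset (Fin n), ∑ v ∈ τᶜ, (sg v τ : F) * z (insert v τ) = 0
  j_ne : ∀ v w, v ≠ w → ∀ a b, j v a ≠ j w b
  j_U : ∀ v ∈ U, j v true = j v false
  j_adj : ∀ v, v ∉ U → j v true ≠ j v false ∧ ¬ G.Adj (j v true) (j v false)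
  clique : ∀ σ, z σ ≠ 0 → ∀ v ∈ σ, ∀ w ∈ σ, v ≠ w → ∀ a b, G.Adj (j v a) (j w b)
  cliqueU : ∀ v ∈ U, ∀ w ∈ U, v ≠ w → G.Adj (j v true) (j w true)

/-! ### residual chains and torsion growth -/

/-- There is a decreasing sequence of normal subgroups of finite index with trivial intersection. -/
def ResFin (Γ : Type) [Group Γ] : Prop :=
  ∃ (N : ℕ → Subgroup Γ) (_ : ∀ i, (N i).Normal), (∀ i, (N i).FiniteIndex) ∧ Antitone N ∧ ⨅ i, N i = ⊥

/-- A decreasing sequence of normal subgroups of finite index with trivial intersection. -/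
structure Chain (Γ : Type) [Group Γ] where
  K : ℕ → Subgroup Γ
  normal : ∀ i, (K i).Normal
  index : ∀ i, (K i).FiniteIndex
  anti : Antitone K
  inf : ⨅ i, K i = ⊥

instance {Γ : Type} [Group Γ] (R : Chain Γ) (i : ℕ) : (R.K i).Normal := R.normal i

/-- The logarithm of the order of the torsion subgroup of `H_m` of the quotient complex by the normal subgroup `N`,
divided by the index of `N`. -/
def tg {Γ : Type} [Group Γ] (C : Cx Γ) (m : ℕ) (N : Subgroup Γ) [N.Normal] : ℝ :=
  Real.log ((C.quot N).tors m) / N.index

/-- Growth of the torsion in degree `m` of the covers of the square: for every residual chain `K_i` and `c < b`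
eventually `log |tors H_m| / index ≥ c² log p`. -/
def SqGrowth {Γ : Type} [Group Γ] (C : Cx Γ) (p m : ℕ) (b : ℝ) : Prop :=
  ∀ (R : Chain Γ) (c : ℝ), 0 < c → c < b → ∀ᶠ i in atTop, c ^ 2 * Real.log p ≤ tg C.sq m ((R.K i).prod (R.K i))

/-- Growth of the torsion in degree `m` of the covers of the third power: for every residual chain `K_i` and `c < b`
eventually `log |tors H_m| / index ≥ c³ log p`. -/
def CubeGrowth {Γ : Type} [Group Γ] (C : Cx Γ) (p m : ℕ) (b : ℝ) : Prop :=
  ∀ (R : Chain Γ) (c : ℝ), 0 < c → c < b → ∀ᶠ i in atTop,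
    c ^ 3 * Real.log p ≤ tg C.cube m ((R.K i).prod ((R.K i).prod (R.K i)))

end Run7.h636.Pub
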