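import Pool.Agent.N496.LT.Stm2

/-!
# Project LT (helper636): short forms of the definitions

`dav G` is the complex `davis G` of `Pool/Agent/N496/LT/Defs.lean`, and `C.fr` is `C.toFree`, written with named
parts.
-/

set_option autoImplicit false

open scoped Matrix

noncomputable section

namespace Run7.h636.LT

open Pool.Agent.N496.LT Pool.Agent.TH630.Tor Pool.Agent.W907.SG Pool.Agent.W461.SGN

/-! ### the complex of a graded complex, one degree at a time -/

section free

variable {G : Type} [Group G] (C : GCx G)

/-- the `a`-th cell of dimension `n` -/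
def cellN (n : ℕ) (a : Fin (Fintype.card {i : C.ι // C.deg i = n})) : C.ι :=
  ((Fintype.equivFin {i : C.ι // C.deg i = n}).symm a).1

/-- the boundary matrix from degree `n + 1` to degree `n` -/
def bdN (n : ℕ) : Matrix (Fin (Fintype.card {i : C.ι // C.deg i = n + 1}))
    (Fin (Fintype.card {i : C.ι // C.deg i = n})) (MonoidAlgebra ℤ G) :=
  Matrix.of fun a b => C.D (cellN C (n + 1) a) (cellN C n b)

theorem bdN_sq (n : ℕ) : bdN C (n + 1) * bdN C n = 0 := C.toFree.d_comp_d n

theorem card_zero (n : ℕ) (hn : Finset.univ.sup C.deg < n) : Fintype.card {i : C.ι // C.deg i = n} = 0 :=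
  C.toFree.rank_eq_zero n hn

/-- The complex `C`, one degree at a time. -/
def fr : FreeCx G where
  rank n := Fintype.card {i : C.ι // C.deg i = n}
  dim := Finset.univ.sup C.deg
  rank_eq_zero := card_zero C
  d := bdN C
  d_comp_d := bdN_sq C

theorem fr_eq : fr C = C.toFree := rfl

end free

/-! ### the Davis complex -/

section davis

variable {V : Type} [Fintype V] [LinearOrder V] (G : SimpleGraph V)

/-- The orbits of the cells of the Davis complex of `W G` under the kernel `Γ` of `W G → (ℤ/2)^V`: `(T, A)` with `T` a
clique and `A` disjoint from `T` is the orbit of the cube `rep A W_T`. -/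
def Cell : Type := {c : Finset V × Finset V // G.IsClique (c.1 : Set V) ∧ Disjoint c.1 c.2}

open Classical in
instance : Fintype (Cell G) :=
  inferInstanceAs (Fintype {c : Finset V × Finset V // G.IsClique (c.1 : Set V) ∧ Disjoint c.1 c.2})

open Classical in
instance : DecidableEq (Cell G) :=
  inferInstanceAs (DecidableEq {c : Finset V × Finset V // G.IsClique (c.1 : Set V) ∧ Disjoint c.1 c.2})

/-- the element of `Γ` that moves the representative of its orbit to `rep A s_t` -/
def mv (c : Cell G) (t : V) : (th G).ker := gm G (rep G c.1.2 * (cox G).simple t)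

/-- the group element `g` if `P` holds, else `0` -/
def ind {Γ : Type} [Group Γ] (P : Prop) [Decidable P] (g : Γ) : MonoidAlgebra ℤ Γ := if P then MonoidAlgebra.single g 1 else 0

/-- the unit element if `P` holds, else `0` -/
def ind1 {Γ : Type} [Group Γ] (P : Prop) [Decidable P] : MonoidAlgebra ℤ Γ := if P then 1 else 0

open Classical in
/-- the coefficient of the cell `c'` in `w W_{T - t} - w t W_{T - t}`, `w = rep A`, if `T' = T - t` -/
def ends (c c' : Cell G) (t : V) : MonoidAlgebra ℤ (th G).ker :=
  ind1 (c'.1.2 = c.1.2) - ind (c'.1.2 = insert t c.1.2) (mv G c t)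

open Classical in
/-- the part of the boundary of the cell `(T, A)` in the direction `t ∈ T` -/
def part (c c' : Cell G) (t : V) : MonoidAlgebra ℤ (th G).ker :=
  if c'.1.1 = c.1.1.erase t then (sg t (c.1.1.erase t) : MonoidAlgebra ℤ (th G).ker) * ends G c c' t else 0

/-- the boundary -/
def bdM : Matrix (Cell G) (Cell G) (MonoidAlgebra ℤ (th G).ker) :=
  Matrix.of fun c c' => ∑ t ∈ c.1.1, part G c c' t

theorem bdM_deg (c c' : Cell G) (h : bdM G c c' ≠ 0) : c.1.1.card = c'.1.1.card + 1 :=
  (davis G).D_deg c c' h

theorem bdM_sq : bdM G * bdM G = 0 := (davis G).D_sq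

/-- The cellular chain complex of the Davis complex of the right-angled Coxeter group `W G` over the kernel `Γ` of
`W G → (ℤ/2)^V`. -/
def dav : GCx (th G).ker where
  ι := Cell G
  deg c := c.1.1.card
  D := bdM G
  D_deg := bdM_deg G
  D_sq := bdM_sq G

theorem dav_eq : dav G = davis G := rfl

end davis

/-! ### residual chains and normalized torsion -/

/-- A decreasing sequence of normal subgroups of finite index with trivial intersection. -/
structure Chain (Γ : Type) [Group Γ] where
  K : ℕ → Subgroup Γ
  normal : ∀ i, (K i).Normal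
  index : ∀ i, (K i).FiniteIndex
  anti : Antitone K
  inf : ⨅ i, K i = ⊥

instance {Γ : Type} [Group Γ] (R : Chain Γ) (i : ℕ) : (R.K i).Normal := R.normal i

/-- The logarithm of the order of the torsion subgroup of `H_m` of the quotient complex by the normal subgroup `N`,
divided by the index of `N`. -/
def tg {Γ : Type} [Group Γ] (C : GCx Γ) (m : ℕ) (N : Subgroup Γ) [N.Normal] : ℝ :=
  Real.log ((C.quot N).torsOrder m) / N.index

/-- the product of a space with itself -/
def sq {Γ : Type} [Group Γ] (C : GCx Γ) : GCx (Γ × Γ) := C.prod C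

/-- the third power of a space -/
def cube {Γ : Type} [Group Γ] (C : GCx Γ) : GCx (Γ × Γ × Γ) := C.prod (C.prod C)

/-- Growth of the torsion in degree `m` of the covers of the square: for every residual chain `K_i` and `c < b`
eventually `log |tors H_m| / index ≥ c² log p`. -/
def SqGrowth {Γ : Type} [Group Γ] (C : GCx Γ) (p m : ℕ) (b : ℝ) : Prop :=
  ∀ (R : Chain Γ) (c : ℝ), 0 < c → c < b → ∀ᶠ i in Filter.atTop,
    c ^ 2 * Real.log p ≤ tg (sq C) m ((R.K i).prod (R.K i))

/-- Growth of the torsion in degree `m` of the covers of the third power: for every residual chain `K_i` and `c < b`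
eventually `log |tors H_m| / index ≥ c³ log p`. -/
def CubeGrowth {Γ : Type} [Group Γ] (C : GCx Γ) (p m : ℕ) (b : ℝ) : Prop :=
  ∀ (R : Chain Γ) (c : ℝ), 0 < c → c < b → ∀ᶠ i in Filter.atTop,
    c ^ 3 * Real.log p ≤ tg (cube C) m ((R.K i).prod ((R.K i).prod (R.K i)))

/-- The flag complex of `H` is a triangulation of the sphere of dimension `k - 1`: it and all its links are real
homology spheres, and its realization is embedded in the unit sphere of the euclidean space of dimension `k`. -/
def TSph (k : ℕ) {N : ℕ} (H : SimpleGraph (Fin N)) : Prop :=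
  Pool.Agent.TH652.Above.HSph k H ∧ ∃ f : (Fin N → ℝ) → EuclideanSpace ℝ (Fin k),
    ContinuousOn f (Pool.Agent.R782.Bal.Rea H) ∧ (∀ x ∈ Pool.Agent.R782.Bal.Rea H, ‖f x‖ = 1) ∧
    Set.InjOn f (Pool.Agent.R782.Bal.Rea H)

end Run7.h636.LT
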